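import Pool.Agent.Helper2.AR.Defs

/-!
# A line whose tree of initial segments is special is Aronszajn, without Suslin suborder
(module [AR-Line])

`T : TreeLine K I`. For `ξ : K` the class of `a` is `{b | Ag ξ a b}`; classes are convex.
Basic facts, for `X : Set I` uncountable and `ξ : K`:
(0) there is `a ∈ X` with `ξ < lev a` and `{b ∈ X | Ag ξ a b}` uncountable (`cnt`, `cls`).
(1) If `<` is well founded on `X` then `X` is countable. Replace `X` by an initial segment `X'`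
of `X` which is uncountable while all `{y ∈ X' | y < x}`, `x ∈ X'`, are countable. For each `ξ`
two uncountable classes in `X'` are equal (if they are different, all elements of one are below
all elements of the other, by `convex`). By (0) choose `a ξ ∈ X'` with `ξ < lev (a ξ)` and an
uncountable class at `ξ`; for `ξ < ζ` the class of `a ζ` at `ξ` contains its class at `ζ`
(`anti`), so it is uncountable and `Ag ξ (a ξ) (a ζ)`; by `spec` `ξ ↦ σ ξ (a ξ)` is injective
`K → ℕ`, contradiction.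
(2) The same for `>` (apply (1) to the dual `TreeLine K Iᵒᵈ`).
(3) If `X` is separable it is countable: let `Q` be countable dense in `X`, `ξ` a bound of the
levels of `Q` (`hb`), `a` as in (0); the class of `a` in `X` is convex and infinite, take
`x < y < z` in it, `Ioo x z` (in `X`) is open and nonempty so contains `q ∈ Q`; `Ag ξ q a` by
convexity, and `lev q ≤ ξ`, so by `sing` the class is `{q}`, contradiction.
(4) No `X` is a Suslin line: `X` is uncountable (a countable space is separable). For each `ξ`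
let `a ξ` be as in (0); pigeonhole: `E` uncountable with `σ ξ (a ξ)` constant on `E`; by `spec`
the classes of `a ξ` at `ξ`, for `ξ ∈ E`, are pairwise disjoint: if `ξ < ζ` and `b` is in both
then `Ag ξ (a ξ) (a ζ)`. Each contains `x < y < z`, all in `X`, and `Ioo x z` is contained in the
class (`convex`): an uncountable family of pairwise disjoint nonempty open intervals of `X`.
Convexity in the form needed: if `x < y < z` and `Ag ξ x z` then `Ag ξ x y` (otherwise
`convex : x < y, ¬ Ag ξ x y, Ag ξ x z, Ag ξ y y` gives `z < y`).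
-/

open Set

namespace Helper2.AR

variable {K I : Type} [LinearOrder K] [LinearOrder I]

/-- an uncountable set has an uncountable class at every level -/
theorem TreeLine.exists_big (T : TreeLine K I) {X : Set I} (hX : ¬ X.Countable) (ξ : K) :
    ∃ a ∈ X, ξ < T.lev a ∧ ¬ {b | b ∈ X ∧ T.Ag ξ a b}.Countable := by
  by_contra hcon
  push Not at hcon
  obtain ⟨c, hc⟩ := T.cls ξ
  apply hX
  have hsub : X ⊆ {a | T.lev a ≤ ξ} ∪ ⋃ n : ℕ, {a | a ∈ X ∧ ξ < T.lev a ∧ c a = n} := by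
    intro a ha
    by_cases h : T.lev a ≤ ξ
    · exact Or.inl h
    · exact Or.inr (mem_iUnion.2 ⟨c a, ha, not_le.1 h, rfl⟩)
  refine Countable.mono hsub ((T.cnt ξ).union (countable_iUnion fun n => ?_))
  rcases eq_empty_or_nonempty {a | a ∈ X ∧ ξ < T.lev a ∧ c a = n} with h | ⟨a₀, h1, h2, h3⟩
  · rw [h]
    exact countable_empty
  · refine (hcon a₀ h1 h2).mono ?_
    rintro b ⟨hb1, hb2, hb3⟩
    exact ⟨hb1, hc a₀ b h2 hb2 (h3.trans hb3.symm)⟩

/-- classes are convex -/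
theorem TreeLine.mid (T : TreeLine K I) {ξ : K} {x y z : I} (h1 : x < y) (h2 : y < z)
    (h : T.Ag ξ x z) : T.Ag ξ x y := by
  by_contra hn
  exact lt_asymm h2 (T.convex h1 hn h (T.refl ξ y))

/-- not all uncountable classes of an uncountable set agree -/
theorem TreeLine.absurd_of_agree [Uncountable K] (T : TreeLine K I) {X : Set I}
    (hX : ¬ X.Countable)
    (H : ∀ ξ a a', ¬ {b | b ∈ X ∧ T.Ag ξ a b}.Countable →
      ¬ {b | b ∈ X ∧ T.Ag ξ a' b}.Countable → T.Ag ξ a a') : False := by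
  choose a ha1 ha2 ha3 using fun ξ => T.exists_big hX ξ
  have key : ∀ ξ ζ, ξ < ζ → T.σ ξ (a ξ) ≠ T.σ ζ (a ζ) := by
    intro ξ ζ h
    refine T.spec h (ha2 ξ) (ha2 ζ) (H ξ _ _ (ha3 ξ) fun hcon => ha3 ζ (hcon.mono ?_))
    rintro b ⟨hb1, hb2⟩
    exact ⟨hb1, T.anti h.le hb2⟩
  have inj : Function.Injective fun ξ => T.σ ξ (a ξ) := by
    intro ξ ζ h
    rcases lt_trichotomy ξ ζ with h' | h' | h'
    · exact absurd h (key _ _ h')
    · exact h'
    · exact absurd h.symm (key _ _ h')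
  exact not_countable_iff.2 ‹Uncountable K› inj.countable

theorem TreeLine.wf_lt [Uncountable K] (T : TreeLine K I) {X : Set I}
    (hX : ∀ x ∈ X, {y | y ∈ X ∧ y < x}.Countable) : X.Countable := by
  by_contra hn
  refine T.absurd_of_agree hn fun ξ a a' h h' => ?_
  by_contra hcon
  have hne : a ≠ a' := fun h => hcon (h ▸ T.refl ξ a)
  have aux : ∀ a a', a < a' → ¬ T.Ag ξ a a' → ¬ {b | b ∈ X ∧ T.Ag ξ a b}.Countable →
      ¬ {b | b ∈ X ∧ T.Ag ξ a' b}.Countable → False := by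
    intro a a' hlt hag h1 h2
    obtain ⟨b', hb1, hb2⟩ : {b | b ∈ X ∧ T.Ag ξ a' b}.Nonempty := by
      rcases eq_empty_or_nonempty {b | b ∈ X ∧ T.Ag ξ a' b} with h | h
      · exact absurd (h ▸ countable_empty) h2
      · exact h
    refine h1 ((hX b' hb1).mono ?_)
    rintro b ⟨hc1, hc2⟩
    exact ⟨hc1, T.convex hlt hag hc2 hb2⟩
  rcases lt_or_gt_of_ne hne with hlt | hlt
  · exact aux a a' hlt hcon h h'
  · exact aux a' a hlt (fun h => hcon (T.symm h)) h' h

theorem TreeLine.wf_gt [Uncountable K] (T : TreeLine K I) {X : Set I}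
    (hX : ∀ x ∈ X, {y | y ∈ X ∧ x < y}.Countable) : X.Countable := by
  by_contra hn
  refine T.absurd_of_agree hn fun ξ a a' h h' => ?_
  by_contra hcon
  have hne : a ≠ a' := fun h => hcon (h ▸ T.refl ξ a)
  have aux : ∀ a a', a < a' → ¬ T.Ag ξ a a' → ¬ {b | b ∈ X ∧ T.Ag ξ a b}.Countable →
      ¬ {b | b ∈ X ∧ T.Ag ξ a' b}.Countable → False := by
    intro a a' hlt hag h1 h2
    obtain ⟨b', hb1, hb2⟩ : {b | b ∈ X ∧ T.Ag ξ a b}.Nonempty := by
      rcases eq_empty_or_nonempty {b | b ∈ X ∧ T.Ag ξ a b} with h | h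
      · exact absurd (h ▸ countable_empty) h1
      · exact h
    refine h2 ((hX b' hb1).mono ?_)
    rintro b ⟨hc1, hc2⟩
    exact ⟨hc1, T.convex hlt hag hb2 hc2⟩
  rcases lt_or_gt_of_ne hne with hlt | hlt
  · exact aux a a' hlt hcon h h'
  · exact aux a' a hlt (fun h => hcon (T.symm h)) h' h

/-- three points of an uncountable set -/
theorem exists_three {S : Set I} (hS : ¬ S.Countable) :
    ∃ x y z, x ∈ S ∧ y ∈ S ∧ z ∈ S ∧ x < y ∧ y < z := by
  have hinf : S.Infinite := fun h => hS h.countable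
  obtain ⟨t, ht, h3⟩ := hinf.exists_subset_card_eq 3
  let f := t.orderEmbOfFin h3
  exact ⟨f 0, f 1, f 2, ht (t.orderEmbOfFin_mem h3 0), ht (t.orderEmbOfFin_mem h3 1),
    ht (t.orderEmbOfFin_mem h3 2), f.strictMono (by decide), f.strictMono (by decide)⟩

theorem TreeLine.isAronszajn [Uncountable K] [Uncountable I]
    (hb : ∀ C : Set K, C.Countable → ∃ b, ∀ c ∈ C, c ≤ b) (T : TreeLine K I) :
    IsAronszajnLine I := by
  refine ⟨inferInstance, fun X hX => ?_, fun X hX => ?_, fun X hX => ?_⟩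
  · by_contra hn
    by_cases h : ∃ x : X, ¬ {y | y ∈ X ∧ y < (x : I)}.Countable
    · have hwf : WellFounded ((· < ·) : X → X → Prop) := hX.wf
      let x₀ := hwf.min {x : X | ¬ {y | y ∈ X ∧ y < (x : I)}.Countable} h
      have hx₀ : ¬ {y | y ∈ X ∧ y < (x₀ : I)}.Countable :=
        hwf.min_mem {x : X | ¬ {y | y ∈ X ∧ y < (x : I)}.Countable} h
      refine hx₀ (T.wf_lt fun x hx => ?_)
      by_contra hc
      refine hwf.not_lt_min {x : X | ¬ {y | y ∈ X ∧ y < (x : I)}.Countable}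
        (x := ⟨x, hx.1⟩) (fun hcon => hc (hcon.mono ?_)) hx.2
      rintro y ⟨hy1, hy2⟩
      exact ⟨hy1.1, hy2⟩
    · push Not at h
      exact hn (T.wf_lt fun x hx => h ⟨x, hx⟩)
  · by_contra hn
    by_cases h : ∃ x : X, ¬ {y | y ∈ X ∧ (x : I) < y}.Countable
    · have hwf : WellFounded ((· > ·) : X → X → Prop) := hX.wf
      let x₀ := hwf.min {x : X | ¬ {y | y ∈ X ∧ (x : I) < y}.Countable} h
      have hx₀ : ¬ {y | y ∈ X ∧ (x₀ : I) < y}.Countable :=
        hwf.min_mem {x : X | ¬ {y | y ∈ X ∧ (x : I) < y}.Countable} h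
      refine hx₀ (T.wf_gt fun x hx => ?_)
      by_contra hc
      refine hwf.not_lt_min {x : X | ¬ {y | y ∈ X ∧ (x : I) < y}.Countable}
        (x := ⟨x, hx.1⟩) (fun hcon => hc (hcon.mono ?_)) hx.2
      rintro y ⟨hy1, hy2⟩
      exact ⟨hy1.1, hy2⟩
    · push Not at h
      exact hn (T.wf_gt fun x hx => h ⟨x, hx⟩)
  · by_contra hn
    let _ : TopologicalSpace X := Preorder.topology X
    have _ : OrderTopology X := ⟨rfl⟩
    have hsep : TopologicalSpace.SeparableSpace X := hX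
    obtain ⟨Q, hQc, hQd⟩ := TopologicalSpace.exists_countable_dense X
    obtain ⟨ξ, hξ⟩ := hb ((fun q : X => T.lev q) '' Q) (hQc.image _)
    obtain ⟨a, ha1, ha2, ha3⟩ := T.exists_big hn ξ
    obtain ⟨x, y, z, ⟨hx1, hx2⟩, ⟨hy1, hy2⟩, ⟨hz1, hz2⟩, hxy, hyz⟩ := exists_three ha3
    have hopen : IsOpen (Ioo (⟨x, hx1⟩ : X) ⟨z, hz1⟩) := isOpen_Ioo
    obtain ⟨q, hq1, hq2⟩ := hQd.exists_mem_open hopen ⟨⟨y, hy1⟩, hxy, hyz⟩
    have hq : T.Ag ξ x q := T.mid hq2.1 hq2.2 (T.trans (T.symm hx2) hz2)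
    have hle : T.lev q ≤ ξ := hξ _ ⟨q, hq1, rfl⟩
    have heq : (q : I) = a := T.sing hle (T.symm (T.trans hx2 hq))
    rw [heq] at hle
    exact absurd ha2 (not_lt.2 hle)

theorem TreeLine.not_containsSuslin [Uncountable K] (T : TreeLine K I) :
    ¬ ContainsSuslin I := by
  rintro ⟨X, hns, hF⟩
  have hX : ¬ X.Countable := by
    intro hc
    apply hns
    let _ : TopologicalSpace X := Preorder.topology X
    have _ : Countable X := hc.to_subtype
    exact (inferInstance : TopologicalSpace.SeparableSpace X)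
  choose a ha1 ha2 ha3 using fun ξ => T.exists_big hX ξ
  choose x y z hx hy hz hxy hyz using fun ξ => exists_three (ha3 ξ)
  obtain ⟨n, hn⟩ : ∃ n : ℕ, ¬ {ξ | T.σ ξ (a ξ) = n}.Countable := by
    by_contra hcon
    push Not at hcon
    have : (univ : Set K) = ⋃ n : ℕ, {ξ | T.σ ξ (a ξ) = n} := by
      ext ξ
      simp
    exact not_countable_iff.2 ‹Uncountable K›
      (countable_univ_iff.1 (this ▸ countable_iUnion hcon))
  have key : ∀ ξ ζ w, ξ < ζ → T.σ ξ (a ξ) = n → T.σ ζ (a ζ) = n →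
      T.Ag ξ (a ξ) w → T.Ag ζ (a ζ) w → False := by
    intro ξ ζ w h h1 h2 h3 h4
    exact T.spec h (ha2 ξ) (ha2 ζ) (T.trans h3 (T.symm (T.anti h.le h4))) (h1.trans h2.symm)
  have hin : ∀ ξ w, x ξ < w → w < z ξ → T.Ag ξ (a ξ) w := by
    intro ξ w h1 h2
    exact T.trans (hx ξ).2 (T.mid h1 h2 (T.trans (T.symm (hx ξ).2) (hz ξ).2))
  let f : K → X × X := fun ξ => (⟨x ξ, (hx ξ).1⟩, ⟨z ξ, (hz ξ).1⟩)
  have hinj : InjOn f {ξ | T.σ ξ (a ξ) = n} := by
    intro ξ h1 ζ h2 h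
    have h' : x ξ = x ζ := congrArg Subtype.val (congrArg Prod.fst h)
    rcases lt_trichotomy ξ ζ with hl | hl | hl
    · exact (key ξ ζ (x ξ) hl h1 h2 (hx ξ).2 (h' ▸ (hx ζ).2)).elim
    · exact hl
    · exact (key ζ ξ (x ζ) hl h2 h1 (hx ζ).2 (h' ▸ (hx ξ).2)).elim
  refine hn ((mapsTo_image f _).countable_of_injOn hinj (hF (f '' {ξ | T.σ ξ (a ξ) = n}) ?_ ?_))
  · rintro _ ⟨ξ, -, rfl⟩
    exact ⟨⟨y ξ, (hy ξ).1⟩, hxy ξ, hyz ξ⟩
  · rintro _ ⟨ξ, h1, rfl⟩ _ ⟨ζ, h2, rfl⟩ hne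
    refine disjoint_left.2 fun w hw1 hw2 => ?_
    rcases lt_trichotomy ξ ζ with hl | hl | hl
    · exact key ξ ζ w hl h1 h2 (hin ξ w hw1.1 hw1.2) (hin ζ w hw2.1 hw2.2)
    · exact hne (hl ▸ rfl)
    · exact key ζ ξ w hl h2 h1 (hin ζ w hw2.1 hw2.2) (hin ξ w hw1.1 hw1.2)

/-- a tree line from codes, the order being lexicographic -/
def TreeLine.ofCode {V : Type} [LinearOrder V] (code : I → K → V)
    (hlt : ∀ a b : I, a < b ↔ ∃ ξ, (∀ η < ξ, code a η = code b η) ∧ code a ξ < code b ξ)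
    (lev : I → K) (cnt : ∀ ξ, {a | lev a ≤ ξ}.Countable)
    (sing : ∀ {ξ a b}, lev a ≤ ξ → (∀ η ≤ ξ, code a η = code b η) → a = b)
    (cls : ∀ ξ, ∃ c : I → ℕ, ∀ a b, ξ < lev a → ξ < lev b → c a = c b →
      ∀ η ≤ ξ, code a η = code b η)
    (σ : K → I → ℕ)
    (spec : ∀ {ξ ζ a b}, ξ < ζ → ξ < lev a → ζ < lev b →
      (∀ η ≤ ξ, code a η = code b η) → σ ξ a ≠ σ ζ b) : TreeLine K I where
  Ag ξ a b := ∀ η ≤ ξ, code a η = code b η
  refl _ _ := fun _ _ => rfl
  symm h := fun η hη => (h η hη).symm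
  trans h h' := fun η hη => (h η hη).trans (h' η hη)
  anti h h' := fun η hη => h' η (hη.trans h)
  convex := by
    intro ξ a b a' b' hab hn ha hb
    obtain ⟨ζ, h1, h2⟩ := (hlt a b).1 hab
    have hζ : ζ ≤ ξ := by
      by_contra hcon
      exact hn fun η hη => h1 η (hη.trans_lt (not_le.1 hcon))
    refine (hlt a' b').2 ⟨ζ, fun η hη => ?_, ?_⟩
    · rw [← ha η (hη.le.trans hζ), ← hb η (hη.le.trans hζ), h1 η hη]
    · rw [← ha ζ hζ, ← hb ζ hζ]
      exact h2
  lev := lev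
  cnt := cnt
  sing h h' := sing h h'
  cls := cls
  σ := σ
  spec h h' h'' h''' := spec h h' h'' h'''

end Helper2.AR
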