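import Pool.Agent.Helper2.AR.Rho
import Pool.Agent.Helper2.AR.Line

/-!
# The Countryman line of `ρ`  (module [AR-Cman])

`MLine ρ`: the elements of `K`, ordered by the lexicographic order of their codes.

`isCountryman`. It is enough to colour the pairs `(α, β)` with `α < β` (order of `K`) with
countably many colours so that two pairs `(α, β)`, `(γ, δ)` of the same colour with `α ≠ γ`,
`β ≠ δ` satisfy: `α < γ` in `MLine ρ` iff `β < δ` in `MLine ρ`. (Pairs with `α > β` by swapping,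
pairs with `α = β` form a chain.) Colour of `(α, β)`: let `Δ = {ξ < α | ρ ξ α ≠ ρ ξ β}` (finite),
`n` a bound of all `ρ ξ α, ρ ξ β` for `ξ ∈ Δ` and of `ρ α β`;
`F = {ξ < α | ρ ξ α ≤ n ∨ ρ ξ β ≤ n}` (finite); colour = (`n`, the finite set of the triples
`(#(F ∩ Iio ξ), ρ ξ α, ρ ξ β)` for `ξ ∈ F`, the number `#F`), an element of a countable type.
Note for `ξ ∈ F`: both `ρ ξ α ≤ n` and `ρ ξ β ≤ n` (if `ξ ∈ Δ` by choice of `n`, otherwise they
are equal). For `ξ < α`, `ξ ∉ F`: `ρ ξ α = ρ ξ β > n`.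
Let `(α, β)`, `(γ, δ)` have the same colour, `α ≠ γ`, `β ≠ δ`; let `ξ` be the least place where
the codes of `α, γ` differ or the codes of `β, δ` differ; `ξ ≤ min α γ` since the codes of `α`
and `γ` differ at `min α γ`. So `F ∩ Iio ξ = F' ∩ Iio ξ`.
* `ξ < α`, `ξ < γ`, `ξ ∈ F`, `ξ ∈ F'`: the triple of `ξ` in the colour of `(α, β)` is the triple
  of some `η ∈ F'` of the same rank `#(F' ∩ Iio η) = #(F' ∩ Iio ξ)`, so `η = ξ` and all the values
  agree: contradiction with the choice of `ξ`.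
* `ξ < α`, `ξ < γ`, `ξ ∉ F`, `ξ ∉ F'`: `ρ ξ α = ρ ξ β` and `ρ ξ γ = ρ ξ δ`, same direction.
* `ξ < α`, `ξ < γ`, `ξ ∈ F`, `ξ ∉ F'`: `ρ ξ α, ρ ξ β ≤ n < ρ ξ γ = ρ ξ δ`, same direction; and
  symmetrically.
* `ξ = α < γ`, (`code α α = 0 < code γ α`): if `α ∉ F'` then `ρ α β ≤ n < ρ α δ`: same direction.
  If `α ∈ F'` then `#F = #(F ∩ Iio α) = #(F' ∩ Iio α) < #F'`, contradiction with the colour.
* `ξ = γ < α` symmetrically; `ξ = α = γ` is excluded.

`treeLine`: `TreeLine.ofCode` with `lev a = a.val`, `σ ξ a = sig ρ ξ a.val`, `IsRho.restr` and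
`IsRho.spec`.
-/

open Set

namespace Helper2.AR

variable {K : Type} [LinearOrder K]

/-- the code of `α` -/
def mcode (ρ : K → K → ℕ) (α ξ : K) : ℕ := if ξ < α then ρ ξ α + 1 else 0

/-- the line -/
@[ext]
structure MLine (ρ : K → K → ℕ) where
  val : K

theorem mcode_inj (ρ : K → K → ℕ) :
    Function.Injective fun a : MLine ρ => (toLex (mcode ρ a.val) : Lex (K → ℕ)) := by
  have key : ∀ a b : K, a < b → mcode ρ a ≠ mcode ρ b := by
    intro a b hab h
    have := congrFun h a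
    simp [mcode, hab] at this
  intro a b h
  have h' : mcode ρ a.val = mcode ρ b.val := toLex.injective h
  rcases lt_trichotomy a.val b.val with h1 | h1 | h1
  · exact absurd h' (key _ _ h1)
  · exact MLine.ext h1
  · exact absurd h'.symm (key _ _ h1)

noncomputable instance (ρ : K → K → ℕ) [WellFoundedLT K] : LinearOrder (MLine ρ) :=
  LinearOrder.lift' (fun a => (toLex (mcode ρ a.val) : Lex (K → ℕ))) (mcode_inj ρ)

theorem MLine.lt_iff {ρ : K → K → ℕ} [WellFoundedLT K] (a b : MLine ρ) :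
    a < b ↔ ∃ ξ, (∀ η < ξ, mcode ρ a.val η = mcode ρ b.val η) ∧
      mcode ρ a.val ξ < mcode ρ b.val ξ := Iff.rfl

/-- the data of the colour of `(α, β)` -/
structure CGood (ρ : K → K → ℕ) (α β : K) (n : ℕ) (F : Finset K) : Prop where
  top : ρ α β ≤ n
  mem : ∀ ξ, ξ ∈ F ↔ ξ < α ∧ (ρ ξ α ≤ n ∨ ρ ξ β ≤ n)
  small : ∀ ξ ∈ F, ρ ξ α ≤ n ∧ ρ ξ β ≤ n
  big : ∀ ξ, ξ < α → ξ ∉ F → ρ ξ α = ρ ξ β ∧ n < ρ ξ α

theorem exists_cgood {ρ : K → K → ℕ} (h : IsRho ρ) {α β : K} (hab : α < β) :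
    ∃ n F, CGood ρ α β n F := by
  classical
  set Δ : Finset K := (h.coh α β hab).toFinset with hΔ
  have hmΔ : ∀ ξ, ξ ∈ Δ ↔ ξ < α ∧ ρ ξ α ≠ ρ ξ β := by
    intro ξ
    simp [hΔ]
  set n : ℕ := ρ α β + ∑ ξ ∈ Δ, (ρ ξ α + ρ ξ β) with hn
  have hle : ∀ ξ ∈ Δ, ρ ξ α + ρ ξ β ≤ n := by
    intro ξ hξ
    have h2 : ρ ξ α + ρ ξ β ≤ ∑ ξ ∈ Δ, (ρ ξ α + ρ ξ β) :=
      Finset.single_le_sum (f := fun ξ => ρ ξ α + ρ ξ β) (fun i _ => Nat.zero_le _) hξ
    omega
  have hfin : {ξ | ξ < α ∧ (ρ ξ α ≤ n ∨ ρ ξ β ≤ n)}.Finite := by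
    refine ((h.fin α n).union (h.fin β n)).subset ?_
    rintro ξ ⟨h1, h2 | h2⟩
    · exact Or.inl ⟨h1, h2⟩
    · exact Or.inr ⟨h1.trans hab, h2⟩
  have hmem : ∀ ξ, ξ ∈ hfin.toFinset ↔ ξ < α ∧ (ρ ξ α ≤ n ∨ ρ ξ β ≤ n) := by
    intro ξ
    simp
  refine ⟨n, hfin.toFinset, ⟨by omega, hmem, ?_, ?_⟩⟩
  · intro ξ hξ
    obtain ⟨h1, h2⟩ := (hmem ξ).1 hξ
    by_cases h3 : ρ ξ α = ρ ξ β
    · rcases h2 with h2 | h2
      · exact ⟨h2, h3 ▸ h2⟩
      · exact ⟨h3 ▸ h2, h2⟩
    · have := hle ξ ((hmΔ ξ).2 ⟨h1, h3⟩)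
      exact ⟨by omega, by omega⟩
  · intro ξ hξ hn'
    have h2 : ¬ (ρ ξ α ≤ n ∨ ρ ξ β ≤ n) := fun h3 => hn' ((hmem ξ).2 ⟨hξ, h3⟩)
    push Not at h2
    refine ⟨?_, h2.1⟩
    by_contra h3
    have := hle ξ ((hmΔ ξ).2 ⟨hξ, h3⟩)
    omega

/-- the triples -/
def ctrip (ρ : K → K → ℕ) (α β : K) (F : Finset K) : Finset (ℕ × ℕ × ℕ) :=
  F.image fun ξ => ((F.filter (· < ξ)).card, ρ ξ α, ρ ξ β)

theorem rank_inj {F : Finset K} {η ξ : K} (hη : η ∈ F) (hξ : ξ ∈ F)
    (h : (F.filter (· < η)).card = (F.filter (· < ξ)).card) : η = ξ := by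
  have key : ∀ a b : K, a ∈ F → a < b → (F.filter (· < a)).card < (F.filter (· < b)).card := by
    intro a b ha hab
    refine Finset.card_lt_card ?_
    rw [Finset.ssubset_iff_of_subset]
    · exact ⟨a, by simp [ha, hab], by simp⟩
    · intro x hx
      simp only [Finset.mem_filter] at hx ⊢
      exact ⟨hx.1, hx.2.trans hab⟩
  rcases lt_trichotomy η ξ with h1 | h1 | h1
  · exact absurd h (key _ _ hη h1).ne
  · exact h1
  · exact absurd h.symm (key _ _ hξ h1).ne

/-- the case distinction at the first difference, first half -/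
theorem cdir_half {ρ : K → K → ℕ} {α β γ δ : K} {n : ℕ} {F F' : Finset K}
    (hαβ : α < β) (hγδ : γ < δ) (hF : CGood ρ α β n F) (hF' : CGood ρ γ δ n F')
    (hcard : F.card = F'.card) {ξ : K} (hξα : ξ ≤ α) (hξγ : ξ < γ)
    (hlow : ∀ η < ξ, mcode ρ α η = mcode ρ γ η ∧ mcode ρ β η = mcode ρ δ η)
    (hin : ξ < α → ξ ∈ F) (hout : ξ < α → ξ ∉ F') :
    mcode ρ α ξ < mcode ρ γ ξ ∧ mcode ρ β ξ < mcode ρ δ ξ := by
  have hξβ : ξ < β := hξα.trans_lt hαβ
  have hξδ : ξ < δ := hξγ.trans hγδ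
  have hFF : ∀ η < ξ, (η ∈ F ↔ η ∈ F') := by
    intro η hη
    have h1 := (hlow η hη).1
    have h2 := (hlow η hη).2
    have a1 : η < α := hη.trans_le hξα
    have a2 : η < γ := hη.trans hξγ
    have a3 : η < β := hη.trans hξβ
    have a4 : η < δ := hη.trans hξδ
    simp only [mcode, a1, a2, a3, a4, if_true] at h1 h2
    rw [hF.mem, hF'.mem]
    have e1 : ρ η α = ρ η γ := by omega
    have e2 : ρ η β = ρ η δ := by omega
    simp [a1, a2, e1, e2]
  rcases hξα.lt_or_eq with h1 | h1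
  · have s1 := hF.small ξ (hin h1)
    have b1 := hF'.big ξ hξγ (hout h1)
    simp only [mcode, h1, hξγ, hξβ, hξδ, if_true]
    omega
  · subst h1
    have hnot : ξ ∉ F' := by
      intro hmem
      have c1 : F = F.filter (· < ξ) := by
        ext η
        simp only [Finset.mem_filter, iff_self_and]
        intro hη
        exact ((hF.mem η).1 hη).1
      have c2 : F.filter (· < ξ) = F'.filter (· < ξ) := by
        ext η
        simp only [Finset.mem_filter]
        constructor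
        · rintro ⟨x1, x2⟩
          exact ⟨(hFF η x2).1 x1, x2⟩
        · rintro ⟨x1, x2⟩
          exact ⟨(hFF η x2).2 x1, x2⟩
      have c3 : (F'.filter (· < ξ)).card < F'.card := by
        refine Finset.card_lt_card ?_
        rw [Finset.ssubset_iff_of_subset (Finset.filter_subset _ _)]
        exact ⟨ξ, hmem, by simp⟩
      rw [← c2, ← c1] at c3
      omega
    have b1 := hF'.big ξ hξγ hnot
    have t1 := hF.top
    simp only [mcode, lt_irrefl, hξγ, hξβ, hξδ, if_true, if_false]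
    omega

theorem cdir {ρ : K → K → ℕ} {α β γ δ : K} {n : ℕ} {F F' : Finset K}
    (hαβ : α < β) (hγδ : γ < δ) (hF : CGood ρ α β n F) (hF' : CGood ρ γ δ n F')
    (hcard : F.card = F'.card) (htrip : ctrip ρ α β F = ctrip ρ γ δ F') (hne : α ≠ γ)
    {ξ : K} (hξα : ξ ≤ α) (hξγ : ξ ≤ γ)
    (hlow : ∀ η < ξ, mcode ρ α η = mcode ρ γ η ∧ mcode ρ β η = mcode ρ δ η)
    (hdiff : mcode ρ α ξ ≠ mcode ρ γ ξ ∨ mcode ρ β ξ ≠ mcode ρ δ ξ) :
    (mcode ρ α ξ < mcode ρ γ ξ ∧ mcode ρ β ξ < mcode ρ δ ξ) ∨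
    (mcode ρ γ ξ < mcode ρ α ξ ∧ mcode ρ δ ξ < mcode ρ β ξ) := by
  have hlow' : ∀ η < ξ, mcode ρ γ η = mcode ρ α η ∧ mcode ρ δ η = mcode ρ β η :=
    fun η hη => ⟨(hlow η hη).1.symm, (hlow η hη).2.symm⟩
  rcases hξγ.lt_or_eq with h2 | h2
  · rcases hξα.lt_or_eq with h1 | h1
    · have hξβ : ξ < β := h1.trans hαβ
      have hξδ : ξ < δ := h2.trans hγδ
      by_cases m1 : ξ ∈ F
      · by_cases m2 : ξ ∈ F'
        · exfalso
          have hFF : ∀ η < ξ, (η ∈ F ↔ η ∈ F') := by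
            intro η hη
            have h1' := (hlow η hη).1
            have h2' := (hlow η hη).2
            have a1 : η < α := hη.trans h1
            have a2 : η < γ := hη.trans h2
            have a3 : η < β := hη.trans hξβ
            have a4 : η < δ := hη.trans hξδ
            simp only [mcode, a1, a2, a3, a4, if_true] at h1' h2'
            rw [hF.mem, hF'.mem]
            have e1 : ρ η α = ρ η γ := by omega
            have e2 : ρ η β = ρ η δ := by omega
            simp [a1, a2, e1, e2]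
          have c2 : F.filter (· < ξ) = F'.filter (· < ξ) := by
            ext η
            simp only [Finset.mem_filter]
            constructor
            · rintro ⟨x1, x2⟩
              exact ⟨(hFF η x2).1 x1, x2⟩
            · rintro ⟨x1, x2⟩
              exact ⟨(hFF η x2).2 x1, x2⟩
          have hm : ((F.filter (· < ξ)).card, ρ ξ α, ρ ξ β) ∈ ctrip ρ γ δ F' := by
            rw [← htrip]
            exact Finset.mem_image_of_mem _ m1
          obtain ⟨η, hη, he⟩ := Finset.mem_image.1 hm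
          simp only [Prod.mk.injEq] at he
          obtain ⟨e0, e1, e2⟩ := he
          rw [c2] at e0
          have := rank_inj hη m2 e0
          subst this
          simp only [mcode, h1, h2, hξβ, hξδ, if_true] at hdiff
          omega
        · exact Or.inl (cdir_half hαβ hγδ hF hF' hcard hξα h2 hlow (fun _ => m1) (fun _ => m2))
      · by_cases m2 : ξ ∈ F'
        · exact Or.inr (cdir_half hγδ hαβ hF' hF hcard.symm hξγ h1 hlow' (fun _ => m2)
            (fun _ => m1))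
        · have b1 := hF.big ξ h1 m1
          have b2 := hF'.big ξ h2 m2
          simp only [mcode, h1, h2, hξβ, hξδ, if_true] at hdiff ⊢
          omega
    · exact Or.inl (cdir_half hαβ hγδ hF hF' hcard hξα h2 hlow
        (fun h => absurd h1 h.ne) (fun h => absurd h1 h.ne))
  · rcases hξα.lt_or_eq with h1 | h1
    · exact Or.inr (cdir_half hγδ hαβ hF' hF hcard.symm hξγ h1 hlow'
        (fun h => absurd h2 h.ne) (fun h => absurd h2 h.ne))
    · exact absurd (h1.symm.trans h2) hne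

theorem mlt_iff_of_color [WellFoundedLT K] {ρ : K → K → ℕ} {α β γ δ : K} {n : ℕ}
    {F F' : Finset K} (hαβ : α < β) (hγδ : γ < δ) (hF : CGood ρ α β n F)
    (hF' : CGood ρ γ δ n F') (hcard : F.card = F'.card)
    (htrip : ctrip ρ α β F = ctrip ρ γ δ F') (hne : α ≠ γ) :
    ((⟨α⟩ : MLine ρ) < ⟨γ⟩ ∧ (⟨β⟩ : MLine ρ) < ⟨δ⟩) ∨
    ((⟨γ⟩ : MLine ρ) < ⟨α⟩ ∧ (⟨δ⟩ : MLine ρ) < ⟨β⟩) := by
  classical
  set P : K → Prop := fun ξ => mcode ρ α ξ ≠ mcode ρ γ ξ ∨ mcode ρ β ξ ≠ mcode ρ δ ξ with hP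
  have hmin : P (min α γ) := by
    left
    rcases lt_or_gt_of_ne hne with h1 | h1
    · simp [mcode, min_eq_left h1.le, h1]
    · simp [mcode, min_eq_right h1.le, h1]
  obtain ⟨ξ, hξ, hmin'⟩ : ∃ ξ, P ξ ∧ ∀ η, P η → ξ ≤ η := by
    have hwf : WellFounded ((· < ·) : K → K → Prop) := wellFounded_lt
    refine ⟨hwf.min {ξ | P ξ} ⟨_, hmin⟩, hwf.min_mem {ξ | P ξ} ⟨_, hmin⟩, ?_⟩
    intro η hη
    exact not_lt.1 (hwf.not_lt_min {ξ | P ξ} hη)
  have hle := hmin' _ hmin
  have hlow : ∀ η < ξ, mcode ρ α η = mcode ρ γ η ∧ mcode ρ β η = mcode ρ δ η := by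
    intro η hη
    by_contra hcon
    have : P η := by
      simp only [hP]
      by_contra h3
      push Not at h3
      exact hcon h3
    exact absurd (hmin' η this) (not_le.2 hη)
  rcases cdir hαβ hγδ hF hF' hcard htrip hne (hle.trans (min_le_left _ _))
    (hle.trans (min_le_right _ _)) hlow hξ with h1 | h1
  · left
    exact ⟨(MLine.lt_iff _ _).2 ⟨ξ, fun η hη => (hlow η hη).1, h1.1⟩,
      (MLine.lt_iff _ _).2 ⟨ξ, fun η hη => (hlow η hη).2, h1.2⟩⟩
  · right
    exact ⟨(MLine.lt_iff _ _).2 ⟨ξ, fun η hη => (hlow η hη).1.symm, h1.1⟩,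
      (MLine.lt_iff _ _).2 ⟨ξ, fun η hη => (hlow η hη).2.symm, h1.2⟩⟩

/-- the colouring -/
theorem exists_color [WellFoundedLT K] {ρ : K → K → ℕ} (h : IsRho ρ) :
    ∃ col : K → K → ℕ, ∀ α β γ δ : K, α < β → γ < δ → col α β = col γ δ → α ≠ γ →
      ((⟨α⟩ : MLine ρ) < ⟨γ⟩ ∧ (⟨β⟩ : MLine ρ) < ⟨δ⟩) ∨
      ((⟨γ⟩ : MLine ρ) < ⟨α⟩ ∧ (⟨δ⟩ : MLine ρ) < ⟨β⟩) := by
  classical
  have hex : ∀ α β : K, ∃ n : ℕ, ∃ F : Finset K, α < β → CGood ρ α β n F := by
    intro α β
    by_cases hab : α < β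
    · obtain ⟨n, F, hF⟩ := exists_cgood h hab
      exact ⟨n, F, fun _ => hF⟩
    · exact ⟨0, ∅, fun h => absurd h hab⟩
  choose N F hF using hex
  obtain ⟨e, he⟩ := exists_injective_nat (ℕ × ℕ × Finset (ℕ × ℕ × ℕ))
  refine ⟨fun α β => e (N α β, (F α β).card, ctrip ρ α β (F α β)), ?_⟩
  intro α β γ δ h1 h2 h3 h4
  have h5 := he h3
  simp only [Prod.mk.injEq] at h5
  obtain ⟨e1, e2, e3⟩ := h5
  have g1 := hF α β h1
  have g2 := hF γ δ h2
  rw [← e1] at g2
  exact mlt_iff_of_color h1 h2 g1 g2 e2 e3 h4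

theorem MLine.isCountryman [WellFoundedLT K] [Uncountable K] {ρ : K → K → ℕ} (h : IsRho ρ) :
    IsCountryman (MLine ρ) := by
  classical
  obtain ⟨col, hcol⟩ := exists_color h
  refine ⟨?_, ?_⟩
  · have : Function.Injective (fun k : K => (⟨k⟩ : MLine ρ)) := by
      intro a b hab
      exact congrArg MLine.val hab
    exact this.uncountable
  · let N : MLine ρ × MLine ρ → ℕ := fun p =>
      if p.1.val < p.2.val then Nat.pair 0 (col p.1.val p.2.val)
      else if p.2.val < p.1.val then Nat.pair 1 (col p.2.val p.1.val) else Nat.pair 2 0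
    refine ⟨fun n => {p | N p = n}, ?_, ?_⟩
    · intro n p hp q hq hpq
      obtain ⟨⟨a⟩, ⟨b⟩⟩ := p
      obtain ⟨⟨c⟩, ⟨d⟩⟩ := q
      have hpq' : N (⟨a⟩, ⟨b⟩) = N (⟨c⟩, ⟨d⟩) := by
        rw [show N (⟨a⟩, ⟨b⟩) = n from hp, show N (⟨c⟩, ⟨d⟩) = n from hq]
      simp only [N] at hpq'
      by_cases hac : a = c
      · subst hac
        rcases le_total (⟨b⟩ : MLine ρ) ⟨d⟩ with h1 | h1
        · exact Or.inl ⟨le_rfl, h1⟩
        · exact Or.inr ⟨le_rfl, h1⟩
      by_cases hbd : b = d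
      · subst hbd
        rcases le_total (⟨a⟩ : MLine ρ) ⟨c⟩ with h1 | h1
        · exact Or.inl ⟨h1, le_rfl⟩
        · exact Or.inr ⟨h1, le_rfl⟩
      by_cases h1 : a < b
      · rw [if_pos h1] at hpq'
        by_cases h2 : c < d
        · rw [if_pos h2, Nat.pair_eq_pair] at hpq'
          rcases hcol a b c d h1 h2 hpq'.2 hac with h3 | h3
          · exact Or.inl ⟨h3.1.le, h3.2.le⟩
          · exact Or.inr ⟨h3.1.le, h3.2.le⟩
        · rw [if_neg h2] at hpq'
          split_ifs at hpq' <;> rw [Nat.pair_eq_pair] at hpq' <;> omega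
      · rw [if_neg h1] at hpq'
        by_cases h1' : b < a
        · rw [if_pos h1'] at hpq'
          by_cases h2 : c < d
          · rw [if_pos h2, Nat.pair_eq_pair] at hpq'
            omega
          · rw [if_neg h2] at hpq'
            by_cases h2' : d < c
            · rw [if_pos h2', Nat.pair_eq_pair] at hpq'
              rcases hcol b a d c h1' h2' hpq'.2 hbd with h3 | h3
              · exact Or.inl ⟨h3.2.le, h3.1.le⟩
              · exact Or.inr ⟨h3.2.le, h3.1.le⟩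
            · rw [if_neg h2', Nat.pair_eq_pair] at hpq'
              omega
        · have hab : a = b := le_antisymm (not_lt.1 h1') (not_lt.1 h1)
          subst hab
          rw [if_neg h1'] at hpq'
          by_cases h2 : c < d
          · rw [if_pos h2, Nat.pair_eq_pair] at hpq'
            omega
          · rw [if_neg h2] at hpq'
            by_cases h2' : d < c
            · rw [if_pos h2', Nat.pair_eq_pair] at hpq'
              omega
            · have hcd : c = d := le_antisymm (not_lt.1 h2') (not_lt.1 h2)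
              subst hcd
              rcases le_total (⟨a⟩ : MLine ρ) ⟨c⟩ with h5 | h5
              · exact Or.inl ⟨h5, h5⟩
              · exact Or.inr ⟨h5, h5⟩
    · ext p
      simp

theorem MLine.treeLine [WellFoundedLT K] (hK : ∀ a : K, (Iic a).Countable)
    {ρ : K → K → ℕ} (h : IsRho ρ) : Nonempty (TreeLine K (MLine ρ)) := by
  classical
  have hval : Function.Injective (MLine.val : MLine ρ → K) := by
    intro a b hab
    exact MLine.ext hab
  refine ⟨TreeLine.ofCode (fun a ξ => mcode ρ a.val ξ) (fun a b => MLine.lt_iff a b)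
    (fun a => a.val) ?_ ?_ ?_ (fun ξ a => sig ρ ξ a.val) ?_⟩
  · intro ξ
    exact (hK ξ).preimage_of_injOn hval.injOn
  · intro ξ a b hl hag
    rcases lt_trichotomy a.val b.val with h1 | h1 | h1
    · have := hag _ hl
      simp [mcode, h1] at this
    · exact MLine.ext h1
    · have := hag _ (h1.le.trans hl)
      simp [mcode, h1] at this
  · intro ξ
    obtain ⟨c, hc⟩ := h.restr hK ξ
    refine ⟨fun a => c a.val, ?_⟩
    intro a b ha hb hab η hη
    have := hc _ _ ha hb hab η hη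
    simp [mcode, hη.trans_lt ha, hη.trans_lt hb, this]
  · intro ξ ζ a b h1 h2 h3 h4
    refine h.spec h1 h2 h3 ?_
    intro η hη
    have := h4 η hη
    simp only [mcode, hη.trans_lt h2, (hη.trans_lt h1).trans h3, if_true] at this
    omega

end Helper2.AR
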