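import Pool.Agent.Helper2.AR.Rigid

/-!
# Coherent Suslin trees, and Suslin trees of sequences closed under finite changes

Both are nowhere rigid: changing the value at the places `η` by the permutation `π η` (`π η = 1` for
all but finitely many `η`) is an automorphism of the tree.
-/

open Set

namespace Helper2.AR

/-- a sequence of countable length `len` with values in `E` -/
structure CSeq (E : Type) where
  len : K1
  val : Iio len → E

namespace CSeq

variable {E : Type}

theorem ext' {s t : CSeq E} (h : s.len = t.len)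
    (hv : ∀ η (h1 : η < s.len) (h2 : η < t.len), s.val ⟨η, h1⟩ = t.val ⟨η, h2⟩) : s = t := by
  obtain ⟨l, v⟩ := s
  obtain ⟨l', v'⟩ := t
  obtain rfl : l = l' := h
  congr 1
  funext η
  exact hv η.1 η.2 η.2

/-- `s ≤ t`: the sequence `s` is an initial segment of `t` -/
instance : PartialOrder (CSeq E) where
  le s t := s.len ≤ t.len ∧ ∀ η (h1 : η < s.len) (h2 : η < t.len), s.val ⟨η, h1⟩ = t.val ⟨η, h2⟩
  le_refl s := ⟨le_rfl, fun _ _ _ => rfl⟩
  le_trans a b c h1 h2 := ⟨h1.1.trans h2.1, fun η h3 h4 =>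
    (h1.2 η h3 (h3.trans_le h1.1)).trans (h2.2 η (h3.trans_le h1.1) h4)⟩
  le_antisymm a b h1 h2 := ext' (le_antisymm h1.1 h2.1) h1.2

/-- the places at which `s` and `t` have different values -/
def diff (s t : CSeq E) : Set K1 :=
  {η | ∃ (h1 : η < s.len) (h2 : η < t.len), s.val ⟨η, h1⟩ ≠ t.val ⟨η, h2⟩}

end CSeq

/-- `S` is closed under initial segments and under finite changes of its members -/
structure IsUniform {E : Type} (S : Set (CSeq E)) : Prop where
  down : ∀ t ∈ S, ∀ s, s ≤ t → s ∈ S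
  change : ∀ s ∈ S, ∀ t : CSeq E, t.len = s.len → (s.diff t).Finite → t ∈ S

variable {E : Type} {S : Set (CSeq E)}

/-- change the value at the place `η` by the permutation `π η` -/
def CSeq.mapPerm (π : K1 → Equiv.Perm E) (s : CSeq E) : CSeq E := ⟨s.len, fun η => π η.1 (s.val η)⟩

theorem CSeq.mapPerm_le (π : K1 → Equiv.Perm E) (s t : CSeq E) :
    s.mapPerm π ≤ t.mapPerm π ↔ s ≤ t := by
  constructor
  · rintro ⟨h1, h2⟩
    exact ⟨h1, fun η h3 h4 => (π η).injective (h2 η h3 h4)⟩
  · rintro ⟨h1, h2⟩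
    exact ⟨h1, fun η h3 h4 => congrArg (π η) (h2 η h3 h4)⟩

theorem IsUniform.mapPerm_mem (hS : IsUniform S) {π : K1 → Equiv.Perm E}
    (hπ : {η | π η ≠ 1}.Finite) {s : CSeq E} (hs : s ∈ S) : s.mapPerm π ∈ S := by
  refine hS.change s hs _ rfl (hπ.subset ?_)
  rintro η ⟨h1, h2, h3⟩ h4
  apply h3
  change s.val ⟨η, h1⟩ = π η (s.val ⟨η, h2⟩)
  rw [h4]
  rfl

/-- the automorphism of `S` given by `π` -/
def IsUniform.auto (hS : IsUniform S) (π : K1 → Equiv.Perm E) (hπ : {η | π η ≠ 1}.Finite) :
    S ≃o S where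
  toFun s := ⟨s.1.mapPerm π, hS.mapPerm_mem hπ s.2⟩
  invFun s := ⟨s.1.mapPerm fun η => (π η)⁻¹, hS.mapPerm_mem
    (hπ.subset fun η h1 h2 => h1 (by simp [h2])) s.2⟩
  left_inv s := by
    refine Subtype.ext (CSeq.ext' rfl fun η h1 h2 => ?_)
    exact (π η).symm_apply_apply _
  right_inv s := by
    refine Subtype.ext (CSeq.ext' rfl fun η h1 h2 => ?_)
    exact (π η).apply_symm_apply _
  map_rel_iff' {s t} := CSeq.mapPerm_le π s.1 t.1

/-- an automorphism maps a cone onto a cone -/
def iciIso {T : Type} [PartialOrder T] (e : T ≃o T) (u : T) : Ici u ≃o Ici (e u) where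
  toFun x := ⟨e x.1, e.monotone x.2⟩
  invFun x := ⟨e.symm x.1, e.le_symm_apply.2 x.2⟩
  left_inv _ := Subtype.ext (e.symm_apply_apply _)
  right_inv _ := Subtype.ext (e.apply_symm_apply _)
  map_rel_iff' := e.le_iff_le

/-- above every node of a tree of sequences closed under finite changes there are two incomparable
nodes with isomorphic cones -/
theorem IsUniform.iso [Nontrivial E] (hS : IsUniform S) (hunc : ∀ s : S, ¬ (Ici s).Countable)
    (s : S) : ∃ u v, s ≤ u ∧ s ≤ v ∧ ¬ u ≤ v ∧ ¬ v ≤ u ∧ Nonempty (Ici u ≃o Ici v) := by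
  classical
  obtain ⟨t, hst, hne⟩ : ∃ t : S, s ≤ t ∧ t ≠ s := by
    by_contra hcon
    push Not at hcon
    exact hunc s ((Set.countable_singleton s).mono fun t ht => hcon t ht)
  have hlt : s.1.len < t.1.len := by
    refine lt_of_le_of_ne hst.1 fun h => hne ?_
    exact (Subtype.ext (CSeq.ext' h hst.2)).symm
  obtain ⟨b, hb⟩ := exists_ne (t.1.val ⟨s.1.len, hlt⟩)
  let π : K1 → Equiv.Perm E := fun η =>
    if η = s.1.len then Equiv.swap (t.1.val ⟨s.1.len, hlt⟩) b else 1
  have hπ : {η | π η ≠ 1}.Finite := by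
    refine (Set.finite_singleton s.1.len).subset fun η h1 => ?_
    by_contra h2
    exact h1 (if_neg h2)
  have hval : (t.1.mapPerm π).val ⟨s.1.len, hlt⟩ = b := by
    change π s.1.len (t.1.val ⟨s.1.len, hlt⟩) = b
    simp only [π, if_true]
    exact Equiv.swap_apply_left _ _
  refine ⟨t, hS.auto π hπ t, hst, ?_, ?_, ?_, ⟨iciIso _ _⟩⟩
  · refine ⟨hst.1, fun η h1 h2 => ?_⟩
    rw [hst.2 η h1 (h1.trans_le hst.1)]
    change _ = π η (t.1.val ⟨η, h2⟩)
    have h3 : π η = 1 := if_neg h1.ne
    rw [h3]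
    rfl
  · intro h
    exact hb (hval.symm.trans (h.2 s.1.len hlt hlt).symm)
  · intro h
    exact hb (hval.symm.trans (h.2 s.1.len hlt hlt))

/-- every Suslin tree of sequences which is closed under initial segments and finite changes (all
cones uncountable) is nowhere rigid -/
theorem lines_of_uniform [Nontrivial E] (hS : IsUniform S) (hT : IsSuslinTree S)
    (hunc : ∀ s : S, ¬ (Ici s).Countable) : Lines :=
  lines_of_iso S hT hunc (hS.iso hunc)

/-- the coherent Suslin trees: closed under initial segments and finite changes, and any two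
members differ at finitely many places only -/
theorem lines_of_coherent [Nontrivial E] (hS : IsUniform S) (hT : IsSuslinTree S)
    (hcoh : ∀ s ∈ S, ∀ t ∈ S, (CSeq.diff s t).Finite) : Lines := by
  classical
  refine lines_of_uniform hS hT fun s hs => ?_
  -- the cones of the nodes of the level of `s` are countable
  have h1 : ∀ t : S, t.1.len = s.1.len → (Ici t).Countable := by
    intro t ht
    have hlt : ∀ {η}, η < s.1.len → η < t.1.len := fun h => h.trans_eq ht.symm
    let π : K1 → Equiv.Perm E := fun η =>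
      if h : η < s.1.len then Equiv.swap (s.1.val ⟨η, h⟩) (t.1.val ⟨η, hlt h⟩) else 1
    have hπ : {η | π η ≠ 1}.Finite := by
      refine (hcoh s.1 s.2 t.1 t.2).subset fun η h2 => ?_
      by_cases h3 : η < s.1.len
      · refine ⟨h3, hlt h3, fun h4 => h2 ?_⟩
        simp only [π, dif_pos h3]
        rw [h4, Equiv.swap_self]
        rfl
      · exact absurd (dif_neg h3) h2
    have h5 : hS.auto π hπ s = t := by
      refine Subtype.ext (CSeq.ext' ht.symm fun η h2 h3 => ?_)
      change π η (s.1.val ⟨η, h2⟩) = _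
      simp only [π]
      rw [dif_pos (show η < s.1.len from h2)]
      exact Equiv.swap_apply_left _ _
    have h6 := (iciIso (hS.auto π hπ) s).toEquiv
    rw [h5] at h6
    have := hs.to_subtype
    exact (Equiv.countable_iff h6).1 this
  -- hence the tree is countable
  have hanti : ∀ ζ : K1, {t : S | t.1.len = ζ}.Countable := by
    intro ζ
    refine hT.2.2.2.2 _ fun a ha b hb hab hle => hab ?_
    exact Subtype.ext (CSeq.ext' (ha.trans hb.symm) hle.2)
  have h2 : (⋃ ζ ∈ Iic s.1.len, {t : S | t.1.len = ζ}).Countable :=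
    (K1.iic _).biUnion fun ζ _ => hanti ζ
  have h3 : (⋃ t ∈ {t : S | t.1.len = s.1.len}, Ici t).Countable :=
    (hanti _).biUnion fun t ht => h1 t ht
  have h4 : (univ : Set S) ⊆ (⋃ ζ ∈ Iic s.1.len, {t : S | t.1.len = ζ}) ∪
      (⋃ t ∈ {t : S | t.1.len = s.1.len}, Ici t) := by
    intro x _
    rcases le_or_gt x.1.len s.1.len with h5 | h5
    · exact Or.inl (mem_biUnion (show x.1.len ∈ Iic s.1.len from h5) rfl)
    · right
      let y : CSeq E := ⟨s.1.len, fun η => x.1.val ⟨η.1, lt_trans η.2 h5⟩⟩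
      have hy : y ≤ x.1 := ⟨h5.le, fun η _ _ => rfl⟩
      exact mem_biUnion (show (⟨y, hS.down _ x.2 _ hy⟩ : S) ∈ {t : S | t.1.len = s.1.len} from rfl)
        hy
  have := hT.2.2.1
  exact Set.not_countable_univ ((h2.union h3).mono h4)

end Helper2.AR
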