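import Mathlib

/-!
# Aronszajn lines, Suslin lines, Countryman lines, Suslin trees
-/

open Set

namespace Helper2.AR

/-- a linear order is separable: its order topology has a countable dense set -/
def IsSep (X : Type) [LinearOrder X] : Prop :=
  @TopologicalSpace.SeparableSpace X (Preorder.topology X)

/-- Aronszajn line: uncountable, every suborder on which `<` (or `>`) is well founded is
countable, every separable suborder is countable -/
def IsAronszajnLine (L : Type) [LinearOrder L] : Prop :=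
  Uncountable L ∧
  (∀ X : Set L, WellFoundedLT X → X.Countable) ∧
  (∀ X : Set L, WellFoundedGT X → X.Countable) ∧
  (∀ X : Set L, IsSep X → X.Countable)

/-- Suslin line: not separable, and every family of pairwise disjoint nonempty open intervals
is countable -/
def IsSuslinLine (X : Type) [LinearOrder X] : Prop :=
  ¬ IsSep X ∧ ∀ F : Set (X × X), (∀ p ∈ F, (Ioo p.1 p.2).Nonempty) →
    F.PairwiseDisjoint (fun p => Ioo p.1 p.2) → F.Countable

/-- some suborder is a Suslin line -/
def ContainsSuslin (L : Type) [LinearOrder L] : Prop := ∃ X : Set L, IsSuslinLine X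

/-- Countryman line: uncountable, and the square with the componentwise order is a countable
union of chains -/
def IsCountryman (C : Type) [LinearOrder C] : Prop :=
  Uncountable C ∧ ∃ F : ℕ → Set (C × C), (∀ n, IsChain (· ≤ ·) (F n)) ∧ (⋃ n, F n) = univ

/-- some uncountable suborder of `L` is isomorphic or anti-isomorphic to some suborder of `M` -/
def Compatible (L M : Type) [LinearOrder L] [LinearOrder M] : Prop :=
  ∃ X : Set L, ∃ Y : Set M, ¬ X.Countable ∧ ¬ Y.Countable ∧
    (Nonempty (X ≃o Y) ∨ Nonempty (X ≃o (Y)ᵒᵈ))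

/-- Suslin tree: the predecessors of each element are well ordered, uncountable (with the next
two clauses: of height `ω₁`), no uncountable chain and no uncountable antichain -/
def IsSuslinTree (T : Type) [PartialOrder T] : Prop :=
  (∀ t : T, IsChain (· ≤ ·) (Iio t)) ∧ WellFoundedLT T ∧ Uncountable T ∧
  (∀ A : Set T, IsChain (· ≤ ·) A → A.Countable) ∧
  (∀ A : Set T, IsAntichain (· ≤ ·) A → A.Countable)

/-! ### Levels -/

/-- `T` is a tree, `len t` the level of `t`, `res t δ` the predecessor of `t` on level `δ` -/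
structure Lev (K T : Type) [LinearOrder K] [PartialOrder T] where
  len : T → K
  res : T → K → T
  len_mono : ∀ {s t}, s ≤ t → len s ≤ len t
  res_le : ∀ {t δ}, δ ≤ len t → res t δ ≤ t
  len_res : ∀ {t δ}, δ ≤ len t → len (res t δ) = δ
  res_of_le : ∀ {s t}, s ≤ t → res t (len s) = s

/-- coherent finite-to-one `ρ` -/
structure IsRho {K : Type} [LinearOrder K] (ρ : K → K → ℕ) : Prop where
  fin : ∀ α n, {ξ | ξ < α ∧ ρ ξ α ≤ n}.Finite
  coh : ∀ α β, α < β → {ξ | ξ < α ∧ ρ ξ α ≠ ρ ξ β}.Finite

/-- the combinatorial form of `the tree of initial segments of a line is special' -/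
structure TreeLine (K I : Type) [LinearOrder K] [LinearOrder I] where
  /-- agreement up to (and including) `ξ` -/
  Ag : K → I → I → Prop
  refl : ∀ ξ a, Ag ξ a a
  symm : ∀ {ξ a b}, Ag ξ a b → Ag ξ b a
  trans : ∀ {ξ a b c}, Ag ξ a b → Ag ξ b c → Ag ξ a c
  anti : ∀ {ξ ζ a b}, ξ ≤ ζ → Ag ζ a b → Ag ξ a b
  convex : ∀ {ξ a b a' b'}, a < b → ¬ Ag ξ a b → Ag ξ a a' → Ag ξ b b' → a' < b'
  /-- level -/
  lev : I → K
  cnt : ∀ ξ, {a | lev a ≤ ξ}.Countable
  sing : ∀ {ξ a b}, lev a ≤ ξ → Ag ξ a b → a = b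
  cls : ∀ ξ, ∃ c : I → ℕ, ∀ a b, ξ < lev a → ξ < lev b → c a = c b → Ag ξ a b
  σ : K → I → ℕ
  spec : ∀ {ξ ζ a b}, ξ < ζ → ξ < lev a → ζ < lev b → Ag ξ a b → σ ξ a ≠ σ ζ b

/-- the sign function `sgn` is flipped by a level preserving map above every node -/
def HasFlips {K T : Type} [LinearOrder K] [PartialOrder T] (D : Lev K T) (sgn : T → Bool) :
    Prop :=
  ∀ s, ∃ s₀, s ≤ s₀ ∧ ∃ g : T → T,
    (∀ t, s₀ ≤ t → s ≤ g t ∧ D.len (g t) = D.len t ∧ sgn (g t) = !sgn t) ∧
    (∀ t u, s₀ ≤ t → t ≤ u → g t ≤ g u)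

end Helper2.AR
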