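import Pool.Agent.Helper2.AR.Defs
import Pool.Agent.Helper2.HB.Stat

/-!
# `ω₁`, and the levels of a Suslin tree  (module [AR-Tree])

`K1` is `ω₁` as a type. `pressing` is the pressing down lemma. `exists_lev`: the level of `t` is
the least `b : K1` with `len s < b` for all `s < t`.
-/

open Cardinal Set

namespace Helper2.AR

/-- `ω₁` as a well ordered type -/
abbrev K1 : Type := (Cardinal.aleph 1).ord.ToType

theorem K1.iic (a : K1) : (Iic a).Countable := by
  have h2 : #(Iio a) < Cardinal.aleph 1 := Cardinal.mk_Iio_toType_ord_lt a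
  have h3 : #(Iio a) ≤ ℵ₀ := Order.lt_succ_iff.1 (h2.trans_eq Cardinal.succ_aleph0.symm)
  have h4 : (Iio a).Countable := Cardinal.le_aleph0_iff_set_countable.1 h3
  rw [← Iio_insert]
  exact h4.insert a

instance K1.unc : Uncountable K1 := by
  rw [← Cardinal.aleph0_lt_mk_iff, Cardinal.mk_ord_toType]
  exact Cardinal.aleph0_lt_aleph_one

theorem K1.bdd (C : Set K1) (hC : C.Countable) : ∃ b, ∀ c ∈ C, c < b := by
  have h1 : (⋃ c ∈ C, Iic c).Countable := hC.biUnion fun c _ => K1.iic c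
  have h2 : (⋃ c ∈ C, Iic c) ≠ (Set.univ : Set K1) := by
    intro h
    rw [h] at h1
    exact Set.not_countable_univ h1
  obtain ⟨b, hb⟩ := (Set.ne_univ_iff_exists_notMem _).1 h2
  refine ⟨b, fun c hc => ?_⟩
  by_contra hcon
  exact hb (mem_biUnion hc (not_lt.1 hcon))

theorem K1.cof : ℵ₀ < Order.cof K1 ∧ ∀ ζ : K1, #(Iio ζ) < Order.cof K1 := by
  have hcof : Order.cof K1 = Cardinal.aleph 1 := by
    rw [Ordinal.cof_toType, Cardinal.isRegular_aleph_one.cof_ord]
  refine ⟨by rw [hcof]; exact Cardinal.aleph0_lt_aleph_one, fun ζ => ?_⟩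
  rw [hcof]
  exact Cardinal.mk_Iio_toType_ord_lt ζ

instance K1.noMax : NoMaxOrder K1 := Cardinal.noMaxOrder (Cardinal.aleph0_le_aleph 1)

theorem K1.pressing (γ : K1) (f : K1 → K1) (hf : ∀ ζ, γ < ζ → f ζ < ζ) :
    ∃ l, ¬ {ζ | γ < ζ ∧ f ζ ≤ l}.Countable := by
  have hst : IsStationary (Ioi γ) := by
    intro C hC
    obtain ⟨γ', hγ'⟩ := exists_gt γ
    obtain ⟨x, hx, hx'⟩ := hC.isCofinal γ'
    exact ⟨x, hγ'.trans_le hx', hx⟩
  obtain ⟨l, hl⟩ := Helper2.HB.pressing_down K1.cof.1 K1.cof.2 hst f (fun ζ hζ => hf ζ hζ)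
  refine ⟨l, fun hcount => ?_⟩
  obtain ⟨b, hb⟩ := K1.bdd _ hcount
  obtain ⟨x, hx1, hx2⟩ := hl (Helper2.HB.isClub_Ioi b)
  exact absurd (hb x hx1) (not_lt.2 (le_of_lt hx2))

theorem exists_lev (T : Type) [PartialOrder T] (h : IsSuslinTree T) : Nonempty (Lev K1 T) := by
  classical
  obtain ⟨hch, hwf, -, hchc, -⟩ := h
  have hcomp : ∀ {r s t : T}, r ≤ t → s ≤ t → r ≤ s ∨ s ≤ r := by
    intro r s t hr hs
    rcases eq_or_lt_of_le hr with rfl | hr'
    · exact Or.inr hs
    rcases eq_or_lt_of_le hs with rfl | hs'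
    · exact Or.inl hr
    exact (hch t).total hr' hs'
  have hstep : ∀ (t : T) (ih : ∀ s, s < t → K1), ∃ b, (∀ s (hs : s < t), ih s hs < b) ∧
      ∀ b', (∀ s (hs : s < t), ih s hs < b') → b ≤ b' := by
    intro t ih
    have h1 : (range fun s : Iio t => ih s.1 s.2).Countable := by
      have := (hchc _ (hch t)).to_subtype
      exact Set.countable_range _
    obtain ⟨b, hb⟩ := K1.bdd _ h1
    obtain ⟨m, hm, hmin⟩ := (wellFounded_lt (α := K1)).has_min
      {b | ∀ s (hs : s < t), ih s hs < b} ⟨b, fun s hs => hb _ ⟨⟨s, hs⟩, rfl⟩⟩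
    exact ⟨m, hm, fun b' hb' => not_lt.1 (hmin b' hb')⟩
  choose F hF1 hF2 using hstep
  let len : T → K1 := (wellFounded_lt (α := T)).fix F
  have hlen : ∀ t, len t = F t (fun s _ => len s) := fun t => WellFounded.fix_eq _ _ _
  have h1 : ∀ {s t : T}, s < t → len s < len t := by
    intro s t hst
    rw [hlen t]
    exact hF1 t (fun s _ => len s) s hst
  have h2 : ∀ (t : T) (b : K1), (∀ s, s < t → len s < b) → len t ≤ b := by
    intro t b hb
    rw [hlen t]
    exact hF2 t (fun s _ => len s) b hb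
  have hmono : ∀ {s t : T}, s ≤ t → len s ≤ len t := by
    intro s t hst
    rcases eq_or_lt_of_le hst with rfl | h'
    · exact le_rfl
    · exact (h1 h').le
  have h3 : ∀ (t : T) (δ : K1), δ ≤ len t → ∃ s, s ≤ t ∧ len s = δ := by
    intro t
    induction t using WellFoundedLT.induction with
    | ind t ih =>
      intro δ hδ
      rcases eq_or_lt_of_le hδ with h' | h'
      · exact ⟨t, le_rfl, h'.symm⟩
      · have h4 : ¬ ∀ s, s < t → len s < δ := fun hall => absurd (h2 t δ hall) (not_le.2 h')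
        push Not at h4
        obtain ⟨s, hs, hsδ⟩ := h4
        obtain ⟨r, hr, hrl⟩ := ih s hs δ hsδ
        exact ⟨r, hr.trans hs.le, hrl⟩
  have h4 : ∀ (t : T) (δ : K1), ∃ s, δ ≤ len t → s ≤ t ∧ len s = δ := by
    intro t δ
    by_cases hδ : δ ≤ len t
    · obtain ⟨s, hs⟩ := h3 t δ hδ
      exact ⟨s, fun _ => hs⟩
    · exact ⟨t, fun h => absurd h hδ⟩
  choose res hres using h4
  refine ⟨⟨len, res, fun h => hmono h, fun {t δ} h => (hres t δ h).1,
    fun {t δ} h => (hres t δ h).2, ?_⟩⟩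
  intro s t hst
  obtain ⟨h5, h6⟩ := hres t (len s) (hmono hst)
  rcases hcomp h5 hst with h7 | h7
  · rcases eq_or_lt_of_le h7 with h8 | h8
    · exact h8
    · exact absurd (h1 h8) (by rw [h6]; exact lt_irrefl _)
  · rcases eq_or_lt_of_le h7 with h8 | h8
    · exact h8.symm
    · exact absurd (h1 h8) (by rw [h6]; exact lt_irrefl _)

end Helper2.AR
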