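import Pool.Agent.Helper2.AR.Main
import Pool.Agent.Helper2.AR.Cman
import Pool.Agent.Helper2.AR.Tree

/-!
# Assembly
-/

open Set

namespace Helper2.AR

/-- a line embedded or anti-embedded in a Countryman line is Countryman -/
theorem countryman_of_map {A C : Type} [LinearOrder A] [LinearOrder C] (hA : Uncountable A)
    (hC : IsCountryman C) (f : A → C)
    (hf : (∀ a b, a ≤ b ↔ f a ≤ f b) ∨ (∀ a b, a ≤ b ↔ f b ≤ f a)) : IsCountryman A := by
  obtain ⟨_, F, hF1, hF2⟩ := hC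
  refine ⟨hA, fun n => {p | (f p.1, f p.2) ∈ F n}, fun n => ?_, ?_⟩
  · intro p hp q hq _
    have h1 := (hF1 n).total hp hq
    rcases hf with hf | hf
    · rcases h1 with h1 | h1
      · exact Or.inl ⟨(hf _ _).2 h1.1, (hf _ _).2 h1.2⟩
      · exact Or.inr ⟨(hf _ _).2 h1.1, (hf _ _).2 h1.2⟩
    · rcases h1 with h1 | h1
      · exact Or.inr ⟨(hf _ _).2 h1.1, (hf _ _).2 h1.2⟩
      · exact Or.inl ⟨(hf _ _).2 h1.1, (hf _ _).2 h1.2⟩
  · rw [eq_univ_iff_forall]
    intro p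
    have h1 : (f p.1, f p.2) ∈ ⋃ n, F n := by rw [hF2]; trivial
    obtain ⟨n, hn⟩ := mem_iUnion.1 h1
    exact mem_iUnion.2 ⟨n, hn⟩

/-- a line without Countryman suborder is not compatible with a Countryman line -/
theorem not_compatible_of {L C : Type} [LinearOrder L] [LinearOrder C]
    (hL : ∀ X : Set L, ¬ IsCountryman X) (hC : IsCountryman C) : ¬ Compatible L C := by
  rintro ⟨X, Y, hX, _, h⟩
  apply hL X
  have hX' : Uncountable X := by
    rw [← not_countable_iff]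
    exact fun h => hX h
  rcases h with ⟨⟨e⟩⟩ | ⟨⟨e⟩⟩
  · refine countryman_of_map hX' hC (fun a => (e a).1) (Or.inl fun a b => ?_)
    exact (e.le_iff_le (x := a) (y := b)).symm
  · refine countryman_of_map hX' hC (fun a => (OrderDual.ofDual (e a)).1) (Or.inr fun a b => ?_)
    exact (e.le_iff_le (x := a) (y := b)).symm

theorem no_countryman {K T : Type} [LinearOrder K] [PartialOrder T] [WellFoundedLT K]
    (hK : ∀ a : K, (Iic a).Countable)
    (hb : ∀ C : Set K, C.Countable → ∃ b, ∀ c ∈ C, c < b)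
    (hpress : ∀ (γ : K) (f : K → K), (∀ ζ, γ < ζ → f ζ < ζ) →
      ∃ l, ¬ {ζ | γ < ζ ∧ f ζ ≤ l}.Countable)
    {ρ : K → K → ℕ} (hρ : IsRho ρ) (D : Lev K T)
    (hanti : ∀ A : Set T, IsAntichain (· ≤ ·) A → A.Countable)
    (sgn : T → Bool) (hflip : HasFlips D sgn) (ι : T → ℕ)
    (hι : ∀ s t, D.len s = D.len t → ι s = ι t → s = t)
    (X : Set (LLine D ρ sgn ι hι)) : ¬ IsCountryman X := by
  classical
  rintro ⟨hX, F, hF1, hF2⟩
  have hsel : ∀ x x' : X, ∃ n, (x, x') ∈ F n := by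
    intro x x'
    have h1 : (x, x') ∈ ⋃ n, F n := by rw [hF2]; trivial
    exact mem_iUnion.1 h1
  choose N hN using hsel
  let κ : T → T → ℕ := fun x x' =>
    if h : (⟨x⟩ : LLine D ρ sgn ι hι) ∈ X ∧ (⟨x'⟩ : LLine D ρ sgn ι hι) ∈ X then
      N ⟨_, h.1⟩ ⟨_, h.2⟩ else 0
  have hXT : ¬ ({x : T | (⟨x⟩ : LLine D ρ sgn ι hι) ∈ X}).Countable := by
    intro hc
    have h1 : X.Countable := by
      refine Set.MapsTo.countable_of_injOn (f := fun a : LLine D ρ sgn ι hι => a.val)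
        (t := {x : T | (⟨x⟩ : LLine D ρ sgn ι hι) ∈ X}) (fun a ha => ha) ?_ hc
      intro a _ b _ hab
      exact LLine.ext hab
    rw [← not_countable_iff] at hX
    exact hX h1
  obtain ⟨x, hx, z, hz, x', hx', z', hz', h1, h2, h3⟩ :=
    main_pair hK hb hpress hρ D hanti sgn hflip ι hι _ hXT κ
  have h4 : κ x x' = N ⟨_, hx⟩ ⟨_, hx'⟩ := dif_pos ⟨hx, hx'⟩
  have h5 : κ z z' = N ⟨_, hz⟩ ⟨_, hz'⟩ := dif_pos ⟨hz, hz'⟩
  have h6 := hN ⟨_, hx⟩ ⟨_, hx'⟩
  have h7 := hN ⟨_, hz⟩ ⟨_, hz'⟩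
  rw [← h4, h1, h5] at h6
  rcases (hF1 _).total h6 h7 with h8 | h8
  · exact absurd h8.2 (not_le.2 h3)
  · exact absurd h8.1 (not_le.2 h2)

/-- the conclusion -/
def Lines : Prop :=
  ∃ (L M : Type) (_ : LinearOrder L) (_ : LinearOrder M),
    IsAronszajnLine L ∧ ¬ ContainsSuslin L ∧ (∀ X : Set L, ¬ IsCountryman X) ∧
    IsAronszajnLine M ∧ ¬ ContainsSuslin M ∧ IsCountryman M ∧
    ¬ Compatible L M

theorem lines_of_flips {T : Type} [PartialOrder T] (hT : IsSuslinTree T) (D : Lev K1 T)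
    (sgn : T → Bool) (hflip : HasFlips D sgn) : Lines := by
  obtain ⟨hch, hwf, hunc, hchain, hanti⟩ := hT
  obtain ⟨ρ, hρ⟩ := exists_rho K1.iic
  have hlev : ∀ δ, {s | D.len s = δ}.Countable := D.countable_level hanti
  have hex : ∀ δ : K1, ∃ f : T → ℕ, InjOn f {s | D.len s = δ} := fun δ =>
    Set.countable_iff_exists_injOn.1 (hlev δ)
  choose f hf using hex
  have hι : ∀ s t, D.len s = D.len t → f (D.len s) s = f (D.len t) t → s = t := by
    intro s t h1 h2
    rw [← h1] at h2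
    exact hf (D.len s) rfl h1.symm h2
  obtain ⟨TL⟩ := LLine.treeLine K1.iic hρ D sgn (fun s => f (D.len s) s) hι hlev
  obtain ⟨TM⟩ := MLine.treeLine K1.iic hρ
  have hb : ∀ C : Set K1, C.Countable → ∃ b, ∀ c ∈ C, c ≤ b := fun C hC => by
    obtain ⟨b, hb⟩ := K1.bdd C hC
    exact ⟨b, fun c hc => (hb c hc).le⟩
  have hL : Uncountable (LLine D ρ sgn (fun s => f (D.len s) s) hι) := by
    refine Function.Injective.uncountable (f := fun s : T => (⟨s⟩ : LLine D ρ sgn _ hι)) ?_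
    intro a b hab
    exact congrArg LLine.val hab
  have hM : Uncountable (MLine ρ) := by
    refine Function.Injective.uncountable (f := fun s : K1 => (⟨s⟩ : MLine ρ)) ?_
    intro a b hab
    exact congrArg MLine.val hab
  have hno := no_countryman K1.iic K1.bdd K1.pressing hρ D hanti sgn hflip _ hι
  exact ⟨_, _, inferInstance, inferInstance, TL.isAronszajn hb, TL.not_containsSuslin, hno,
    TM.isAronszajn hb, TM.not_containsSuslin, MLine.isCountryman hρ,
    not_compatible_of hno (MLine.isCountryman hρ)⟩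

end Helper2.AR
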