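import Pool.Agent.Helper2.AR.Rho
import Pool.Agent.Helper2.AR.Line

/-!
# The line of a tree with a sign function  (module [AR-LLine])

The elements of the tree `T`, ordered by the lexicographic order of the codes `lcode`: at
`ξ < len s` the value is `(ι (s|ξ), ± (1 + ρ ξ (len s)))` with the sign `sgn (s|ξ)`, at
`ξ = len s` it is `(ι s, 0)`, beyond it is `(0, 0)`. `ι` is injective on every level.

`treeLine`: `TreeLine.ofCode` with `lev s = len s`, `σ ξ s = sig ρ ξ (len s)`.
* `cnt`: the levels are countable (`hlev`) and `Iic ξ` is countable.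
* `sing`: if `len s ≤ ξ` and the codes agree up to `ξ`: at `η = len s` the second coordinate of
  the code of `s` is `0`, so `¬ len s < len t` (`1 + ρ > 0`); if `len t < len s` the same at
  `η = len t ≤ ξ`; so `len s = len t` and `ι s = ι t` (at `η = len s`).
* `cls`: colour `s` by `(ι (res s ξ), c (len s))` with `c` from `IsRho.restr ρ ξ`: the same colour
  and `ξ < len s, len t` give `res s ξ = res t ξ` (`hι`), hence `res s η = res t η` for `η ≤ ξ`,
  and `ρ η (len s) = ρ η (len t)` for `η ≤ ξ`.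
* `spec`: from `IsRho.spec`: agreement of the codes up to `ξ` gives `ρ η (len s) = ρ η (len t)`
  for `η ≤ ξ` (compare absolute values of the second coordinates).
-/

open Set

namespace Helper2.AR

variable {K T : Type} [LinearOrder K] [PartialOrder T]

/-- the code of `s` -/
def lcode (D : Lev K T) (ρ : K → K → ℕ) (sgn : T → Bool) (ι : T → ℕ) (s : T) (ξ : K) :
    ℕ ×ₗ ℤ :=
  if ξ ≤ D.len s then
    toLex (ι (D.res s ξ),
      if ξ < D.len s then
        (if sgn (D.res s ξ) then (1 + ρ ξ (D.len s) : ℤ) else -(1 + ρ ξ (D.len s) : ℤ))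
      else 0)
  else toLex (0, 0)

/-- the line -/
@[ext]
structure LLine (D : Lev K T) (ρ : K → K → ℕ) (sgn : T → Bool) (ι : T → ℕ)
    (hι : ∀ s t, D.len s = D.len t → ι s = ι t → s = t) where
  val : T

theorem Lev.res_len (D : Lev K T) (t : T) : D.res t (D.len t) = t := D.res_of_le le_rfl

theorem Lev.res_res (D : Lev K T) {t : T} {δ η : K} (h : η ≤ δ) (h' : δ ≤ D.len t) :
    D.res (D.res t δ) η = D.res t η := by
  have h1 : D.res (D.res t δ) η ≤ D.res t δ := D.res_le (by rw [D.len_res h']; exact h)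
  have h2 := D.res_of_le (h1.trans (D.res_le h'))
  rw [D.len_res (by rw [D.len_res h']; exact h)] at h2
  exact h2.symm

theorem lcode_inj (D : Lev K T) (ρ : K → K → ℕ) (sgn : T → Bool) (ι : T → ℕ)
    (hι : ∀ s t, D.len s = D.len t → ι s = ι t → s = t) :
    Function.Injective fun a : LLine D ρ sgn ι hι =>
      (toLex (lcode D ρ sgn ι a.val) : Lex (K → ℕ ×ₗ ℤ)) := by
  have key : ∀ a b : T, D.len a < D.len b → lcode D ρ sgn ι a ≠ lcode D ρ sgn ι b := by
    intro a b hab h
    have := congrFun h (D.len a)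
    simp only [lcode, le_refl, if_true, lt_irrefl, if_false, hab, hab.le] at this
    have h2 := congrArg (fun p => (ofLex p).2) this
    simp only [ofLex_toLex] at h2
    split_ifs at h2 <;> omega
  intro a b h
  have h' : lcode D ρ sgn ι a.val = lcode D ρ sgn ι b.val := toLex.injective h
  rcases lt_trichotomy (D.len a.val) (D.len b.val) with h1 | h1 | h1
  · exact absurd h' (key _ _ h1)
  · have := congrFun h' (D.len a.val)
    have hb : D.res b.val (D.len a.val) = b.val := by rw [h1]; exact D.res_len _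
    simp only [lcode, le_refl, if_true, h1.le, hb, D.res_len] at this
    have h2 := congrArg (fun p => (ofLex p).1) this
    simp only [ofLex_toLex] at h2
    exact LLine.ext (hι _ _ h1 h2)
  · exact absurd h'.symm (key _ _ h1)

noncomputable instance (D : Lev K T) (ρ : K → K → ℕ) (sgn : T → Bool) (ι : T → ℕ)
    (hι : ∀ s t, D.len s = D.len t → ι s = ι t → s = t) [WellFoundedLT K] :
    LinearOrder (LLine D ρ sgn ι hι) :=
  LinearOrder.lift' (fun a => (toLex (lcode D ρ sgn ι a.val) : Lex (K → ℕ ×ₗ ℤ)))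
    (lcode_inj D ρ sgn ι hι)

theorem LLine.lt_iff {D : Lev K T} {ρ : K → K → ℕ} {sgn : T → Bool} {ι : T → ℕ}
    {hι : ∀ s t, D.len s = D.len t → ι s = ι t → s = t} [WellFoundedLT K]
    (a b : LLine D ρ sgn ι hι) :
    a < b ↔ ∃ ξ, (∀ η < ξ, lcode D ρ sgn ι a.val η = lcode D ρ sgn ι b.val η) ∧
      lcode D ρ sgn ι a.val ξ < lcode D ρ sgn ι b.val ξ := Iff.rfl

theorem lcode_of_lt (D : Lev K T) (ρ : K → K → ℕ) (sgn : T → Bool) (ι : T → ℕ) {s : T} {ξ : K}
    (h : ξ < D.len s) : lcode D ρ sgn ι s ξ = toLex (ι (D.res s ξ),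
      (if sgn (D.res s ξ) then (1 + ρ ξ (D.len s) : ℤ) else -(1 + ρ ξ (D.len s) : ℤ))) := by
  simp only [lcode, h.le, h, if_true]

theorem lcode_len (D : Lev K T) (ρ : K → K → ℕ) (sgn : T → Bool) (ι : T → ℕ) (s : T) :
    lcode D ρ sgn ι s (D.len s) = toLex (ι s, 0) := by
  simp only [lcode, le_refl, lt_irrefl, if_true, if_false, D.res_len]

/-- at a place below both lengths, equal codes give equal values of `ρ` -/
theorem lcode_ne (D : Lev K T) (ρ : K → K → ℕ) (sgn : T → Bool) (ι : T → ℕ) {s t : T}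
    (h : D.len s < D.len t) : lcode D ρ sgn ι s (D.len s) ≠ lcode D ρ sgn ι t (D.len s) := by
  rw [lcode_len, lcode_of_lt D ρ sgn ι h]
  intro h1
  have h2 := congrArg (fun p => (ofLex p).2) h1
  simp only [ofLex_toLex] at h2
  split_ifs at h2 <;> omega

theorem lcode_rho (D : Lev K T) (ρ : K → K → ℕ) (sgn : T → Bool) (ι : T → ℕ) {s t : T} {ξ : K}
    (hs : ξ < D.len s) (ht : ξ < D.len t)
    (h : lcode D ρ sgn ι s ξ = lcode D ρ sgn ι t ξ) : ρ ξ (D.len s) = ρ ξ (D.len t) := by
  rw [lcode_of_lt D ρ sgn ι hs, lcode_of_lt D ρ sgn ι ht] at h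
  have h2 := congrArg (fun p => (ofLex p).2) h
  simp only [ofLex_toLex] at h2
  split_ifs at h2 <;> omega

theorem LLine.treeLine [WellFoundedLT K] (hK : ∀ a : K, (Iic a).Countable)
    {ρ : K → K → ℕ} (h : IsRho ρ) (D : Lev K T) (sgn : T → Bool) (ι : T → ℕ)
    (hι : ∀ s t, D.len s = D.len t → ι s = ι t → s = t)
    (hlev : ∀ δ, {s | D.len s = δ}.Countable) :
    Nonempty (TreeLine K (LLine D ρ sgn ι hι)) := by
  refine ⟨TreeLine.ofCode (fun a => lcode D ρ sgn ι a.val) LLine.lt_iff (fun a => D.len a.val)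
    ?_ ?_ ?_ (fun ξ a => sig ρ ξ (D.len a.val)) ?_⟩
  · intro ξ
    have h1 : {s | D.len s ≤ ξ}.Countable := by
      have : {s | D.len s ≤ ξ} = ⋃ η ∈ Iic ξ, {s | D.len s = η} := by
        ext s
        simp
      rw [this]
      exact (hK ξ).biUnion fun η _ => hlev η
    refine Set.MapsTo.countable_of_injOn (f := fun a : LLine D ρ sgn ι hι => a.val)
      (t := {s | D.len s ≤ ξ}) (fun a ha => ha) ?_ h1
    intro a _ b _ hab
    exact LLine.ext hab
  · intro ξ a b ha hab
    rcases lt_trichotomy (D.len a.val) (D.len b.val) with h1 | h1 | h1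
    · exact absurd (hab _ ha) (lcode_ne D ρ sgn ι h1)
    · have h2 := hab _ ha
      have h3 : lcode D ρ sgn ι b.val (D.len a.val) = toLex (ι b.val, 0) := by
        rw [h1]
        exact lcode_len D ρ sgn ι b.val
      rw [lcode_len, h3] at h2
      have h4 := congrArg (fun p => (ofLex p).1) h2
      simp only [ofLex_toLex] at h4
      exact LLine.ext (hι _ _ h1 h4)
    · exact absurd (hab _ (h1.le.trans ha)).symm (lcode_ne D ρ sgn ι h1)
  · intro ξ
    obtain ⟨c, hc⟩ := h.restr hK ξ
    refine ⟨fun a => Nat.pair (ι (D.res a.val ξ)) (c (D.len a.val)), fun a b ha hb hab => ?_⟩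
    obtain ⟨h1, h2⟩ := Nat.pair_eq_pair.1 hab
    have h3 : D.res a.val ξ = D.res b.val ξ := by
      refine hι _ _ ?_ h1
      rw [D.len_res ha.le, D.len_res hb.le]
    intro η hη
    have h4 : D.res a.val η = D.res b.val η := by
      rw [← D.res_res hη ha.le, ← D.res_res hη hb.le, h3]
    show lcode D ρ sgn ι a.val η = lcode D ρ sgn ι b.val η
    rw [lcode_of_lt D ρ sgn ι (hη.trans_lt ha), lcode_of_lt D ρ sgn ι (hη.trans_lt hb), h4,
      hc _ _ ha hb h2 η hη]
  · intro ξ ζ a b h1 h2 h3 h4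
    exact h.spec h1 h2 h3 fun η hη => lcode_rho D ρ sgn ι (hη.trans_lt h2)
      (hη.trans_lt (h1.trans h3)) (h4 η hη)

end Helper2.AR
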