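import Pool.Agent.Helper2.AR.LLine

/-!
# The line of a Suslin tree with flips contains no Countryman line
-/

open Set

namespace Helper2.AR

variable {K T : Type} [LinearOrder K] [PartialOrder T]

/-- pigeonhole -/
theorem exists_fiber {α β : Type} [Countable β] {E : Set α} (hE : ¬ E.Countable) (f : α → β) :
    ∃ b, ¬ {a | a ∈ E ∧ f a = b}.Countable := by
  by_contra hcon
  push Not at hcon
  apply hE
  have : E = ⋃ b, {a | a ∈ E ∧ f a = b} := by
    ext a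
    simp
  rw [this]
  exact countable_iUnion hcon

theorem Lev.len_lt (D : Lev K T) {s t : T} (h : s < t) : D.len s < D.len t := by
  refine lt_of_le_of_ne (D.len_mono h.le) fun h2 => ?_
  have h3 := D.res_of_le h.le
  rw [h2, D.res_len] at h3
  exact h.ne h3.symm

theorem Lev.le_of_len (D : Lev K T) {s x t : T} (h : s ≤ t) (h' : x ≤ t)
    (h2 : D.len s ≤ D.len x) : s ≤ x := by
  have h3 : D.res x (D.len s) = s := by
    have h4 := D.res_of_le h
    have h5 := D.res_of_le h'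
    calc D.res x (D.len s) = D.res (D.res t (D.len x)) (D.len s) := by rw [h5]
      _ = D.res t (D.len s) := D.res_res h2 (D.len_mono h')
      _ = s := h4
  rw [← h3]
  exact D.res_le h2

theorem Lev.eq_of_len (D : Lev K T) {s x t : T} (h : s ≤ t) (h' : x ≤ t)
    (h2 : D.len s = D.len x) : s = x :=
  le_antisymm (D.le_of_len h h' h2.le) (D.le_of_len h' h h2.ge)

theorem Lev.countable_level (D : Lev K T)
    (hanti : ∀ A : Set T, IsAntichain (· ≤ ·) A → A.Countable) (δ : K) :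
    {s | D.len s = δ}.Countable := by
  apply hanti
  intro s hs t ht hne hle
  exact hne (D.eq_of_len hle le_rfl (hs.trans ht.symm))

theorem Lev.countable_below (D : Lev K T) (hK : ∀ a : K, (Iic a).Countable)
    (hanti : ∀ A : Set T, IsAntichain (· ≤ ·) A → A.Countable) (δ : K) :
    {s | D.len s ≤ δ}.Countable := by
  have : {s | D.len s ≤ δ} = ⋃ η ∈ Iic δ, {s | D.len s = η} := by
    ext s
    simp
  rw [this]
  exact (hK δ).biUnion fun η _ => D.countable_level hanti η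

theorem Lev.exists_high (D : Lev K T) (hK : ∀ a : K, (Iic a).Countable)
    (hanti : ∀ A : Set T, IsAntichain (· ≤ ·) A → A.Countable) {X : Set T} {t : T}
    (h : ¬ {x | x ∈ X ∧ t ≤ x}.Countable) (δ : K) : ∃ x ∈ X, t ≤ x ∧ δ < D.len x := by
  by_contra hcon
  push Not at hcon
  exact h ((D.countable_below hK hanti δ).mono fun x hx => hcon x hx.1 hx.2)

theorem Lev.exists_dense [WellFoundedLT K] (D : Lev K T) (hK : ∀ a : K, (Iic a).Countable)
    (hb : ∀ C : Set K, C.Countable → ∃ b, ∀ c ∈ C, c < b)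
    (hanti : ∀ A : Set T, IsAntichain (· ≤ ·) A → A.Countable) {X : Set T}
    (hX : ¬ X.Countable) : ∃ s, ∀ t, s ≤ t → ¬ {x | x ∈ X ∧ t ≤ x}.Countable := by
  set bad : Set T := {t | {x | x ∈ X ∧ t ≤ x}.Countable} with hbad
  set B : Set T := {t | t ∈ bad ∧ ∀ u, u < t → u ∉ bad} with hB
  have hBc : B.Countable := by
    apply hanti
    intro s hs t ht hne hle
    exact ht.2 s (lt_of_le_of_ne hle hne) hs.1
  obtain ⟨b, hbb⟩ := hb (D.len '' B) (hBc.image _)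
  have hY : (⋃ t ∈ B, {x | x ∈ X ∧ t ≤ x}).Countable := hBc.biUnion fun t ht => ht.1
  have hZ := D.countable_below hK hanti b
  obtain ⟨x, hxX, hx⟩ : ∃ x ∈ X, x ∉ (⋃ t ∈ B, {x | x ∈ X ∧ t ≤ x}) ∪ {s | D.len s ≤ b} := by
    by_contra hcon
    push Not at hcon
    exact hX ((hY.union hZ).mono hcon)
  refine ⟨x, fun t hxt hc => hx (Or.inl ?_)⟩
  have hne : {u | u ≤ t ∧ u ∈ bad}.Nonempty := ⟨t, le_rfl, hc⟩
  obtain ⟨u, ⟨hut, hub⟩, hmin⟩ :=
    (InvImage.wf D.len (wellFounded_lt (α := K))).has_min _ hne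
  have huB : u ∈ B := by
    refine ⟨hub, fun v hv hvb => ?_⟩
    exact hmin v ⟨hv.le.trans hut, hvb⟩ (D.len_lt hv)
  have hub' : D.len u < b := hbb _ ⟨u, huB, rfl⟩
  have hxb : b < D.len x := by
    by_contra hcon
    exact hx (Or.inr (not_lt.1 hcon))
  exact mem_biUnion huB ⟨hxX, D.le_of_len hut hxt (hub'.trans hxb).le⟩

theorem LLine.lt_of {D : Lev K T} {ρ : K → K → ℕ} {sgn : T → Bool} {ι : T → ℕ}
    {hι : ∀ s t, D.len s = D.len t → ι s = ι t → s = t} [WellFoundedLT K]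
    {a b : T} {ξ p : K} (hξ : ξ ≤ p) (ha : p < D.len a) (hb : p < D.len b)
    (hres : D.res a p = D.res b p) (h1 : ∀ η < ξ, ρ η (D.len a) = ρ η (D.len b))
    (h2 : (sgn (D.res a ξ) = true ∧ ρ ξ (D.len a) < ρ ξ (D.len b)) ∨
      (sgn (D.res a ξ) = false ∧ ρ ξ (D.len b) < ρ ξ (D.len a))) :
    (⟨a⟩ : LLine D ρ sgn ι hι) < ⟨b⟩ := by
  have hr : ∀ η ≤ p, D.res a η = D.res b η := by
    intro η hη
    rw [← D.res_res hη ha.le, ← D.res_res hη hb.le, hres]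
  have hξa := hξ.trans_lt ha
  have hξb := hξ.trans_lt hb
  rw [LLine.lt_iff]
  refine ⟨ξ, fun η hη => ?_, ?_⟩
  · have hηp := hη.le.trans hξ
    simp only [lcode, (hηp.trans_lt ha).le, (hηp.trans_lt hb).le, hηp.trans_lt ha,
      hηp.trans_lt hb, if_true, hr η hηp, h1 η hη]
  · simp only [lcode, hξa.le, hξb.le, hξa, hξb, if_true, hr ξ hξ]
    rw [hr ξ hξ] at h2
    rw [Prod.Lex.toLex_lt_toLex]
    right
    refine ⟨rfl, ?_⟩
    rcases h2 with ⟨h3, h4⟩ | ⟨h3, h4⟩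
    · simp only [h3, if_true]
      omega
    · simp only [h3, Bool.false_eq_true, if_false]
      omega

/-- the pairs argument -/
theorem main_pair [WellFoundedLT K] (hK : ∀ a : K, (Iic a).Countable)
    (hb : ∀ C : Set K, C.Countable → ∃ b, ∀ c ∈ C, c < b)
    (hpress : ∀ (γ : K) (f : K → K), (∀ ζ, γ < ζ → f ζ < ζ) →
      ∃ l, ¬ {ζ | γ < ζ ∧ f ζ ≤ l}.Countable)
    {ρ : K → K → ℕ} (hρ : IsRho ρ) (D : Lev K T)
    (hanti : ∀ A : Set T, IsAntichain (· ≤ ·) A → A.Countable)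
    (sgn : T → Bool) (hflip : HasFlips D sgn) (ι : T → ℕ)
    (hι : ∀ s t, D.len s = D.len t → ι s = ι t → s = t)
    (X : Set T) (hX : ¬ X.Countable) (κ : T → T → ℕ) :
    ∃ x ∈ X, ∃ z ∈ X, ∃ x' ∈ X, ∃ z' ∈ X, κ x x' = κ z z' ∧
      (⟨x⟩ : LLine D ρ sgn ι hι) < ⟨z⟩ ∧ (⟨z'⟩ : LLine D ρ sgn ι hι) < ⟨x'⟩ := by
  obtain ⟨s, hs⟩ := D.exists_dense hK hb hanti hX
  obtain ⟨s₀, hs₀, g, hg1, hg2⟩ := hflip s
  set γ := D.len s₀ with hγ
  have hsel : ∀ p, ∃ x x', x ∈ X ∧ x' ∈ X ∧ s₀ ≤ x ∧ p < D.len x ∧ p < D.len x' ∧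
      (γ ≤ p → g (D.res x p) ≤ x') := by
    intro p
    obtain ⟨x, hx, hx1, hx2⟩ := D.exists_high hK hanti (hs s₀ hs₀) p
    by_cases hp : γ ≤ p
    · have h1 : s₀ ≤ D.res x p := D.le_of_len hx1 (D.res_le hx2.le) (by
        rw [D.len_res hx2.le]; exact hp)
      obtain ⟨x', hx', hx1', hx2'⟩ := D.exists_high hK hanti (hs _ (hg1 _ h1).1) p
      exact ⟨x, x', hx, hx', hx1, hx2, hx2', fun _ => hx1'⟩
    · exact ⟨x, x, hx, hx, hx1, hx2, hx2, fun h => absurd h hp⟩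
  choose x x' hxX hx'X hsx hxl hx'l hgx using hsel
  -- the finite sets of differences
  have hdif : ∀ p, {ξ | ξ < p ∧ ρ ξ (D.len (x p)) ≠ ρ ξ (D.len (x' p))}.Finite := by
    intro p
    rcases lt_trichotomy (D.len (x p)) (D.len (x' p)) with h | h | h
    · exact (hρ.coh _ _ h).subset fun ξ hξ => ⟨hξ.1.trans (hxl p), hξ.2⟩
    · rw [h]
      simp
    · exact (hρ.coh _ _ h).subset fun ξ hξ => ⟨hξ.1.trans (hx'l p), hξ.2.symm⟩
  have hmax : ∀ p, ∃ m, (γ < p → m < p) ∧ γ ≤ m ∧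
      ∀ ξ, ξ < p → ρ ξ (D.len (x p)) ≠ ρ ξ (D.len (x' p)) → ξ ≤ m := by
    intro p
    obtain ⟨m, hm, hm2⟩ := Set.exists_max_image
      (insert γ {ξ | ξ < p ∧ ρ ξ (D.len (x p)) ≠ ρ ξ (D.len (x' p))}) id
      ((hdif p).insert γ) ⟨γ, mem_insert _ _⟩
    refine ⟨m, fun hp => ?_, hm2 γ (mem_insert _ _), fun ξ h1 h2 =>
      hm2 ξ (mem_insert_of_mem _ ⟨h1, h2⟩)⟩
    rcases hm with rfl | hm
    · exact hp
    · exact hm.1
  choose h hh1 hh2 hh3 using hmax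
  obtain ⟨l, hl⟩ := hpress γ h hh1
  have hE0 : ¬ {p | γ < p ∧ h p ≤ l ∧ l < p}.Countable := by
    intro hc
    apply hl
    refine (hc.union (hK l)).mono fun p hp => ?_
    rcases lt_or_ge l p with h1 | h1
    · exact Or.inl ⟨hp.1, hp.2, h1⟩
    · exact Or.inr h1
  obtain ⟨c, hc⟩ := hρ.restr hK l
  obtain ⟨v, hv⟩ := exists_fiber hE0 fun p =>
    (c (D.len (x p)), c (D.len (x' p)), ρ p (D.len (x p)), ρ p (D.len (x' p)), κ (x p) (x' p))
  set E : Set K := {a | a ∈ {p | γ < p ∧ h p ≤ l ∧ l < p} ∧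
    (c (D.len (x a)), c (D.len (x' a)), ρ a (D.len (x a)), ρ a (D.len (x' a)),
      κ (x a) (x' a)) = v} with hE
  have hEl : ∀ p ∈ E, l < p := fun p hp => hp.1.2.2
  have hEγ : ∀ p ∈ E, γ < p := fun p hp => hp.1.1
  have hEh : ∀ p ∈ E, h p ≤ l := fun p hp => hp.1.2.1
  have hEv : ∀ p ∈ E, ∀ q ∈ E, c (D.len (x p)) = c (D.len (x q)) ∧
      c (D.len (x' p)) = c (D.len (x' q)) ∧ ρ p (D.len (x p)) = ρ q (D.len (x q)) ∧
      ρ p (D.len (x' p)) = ρ q (D.len (x' q)) ∧ κ (x p) (x' p) = κ (x q) (x' q) := by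
    intro p hp q hq
    have h1 := hp.2.trans hq.2.symm
    simp only [Prod.mk.injEq] at h1
    exact h1
  -- an element with infinitely many predecessors
  obtain ⟨q, hqE, hq⟩ : ∃ q ∈ E, {p | p ∈ E ∧ p < q ∧ D.res (x p) p ≤ x q}.Infinite := by
    by_contra hcon
    push Not at hcon
    have hfin : ∀ q ∈ E, {p | p ∈ E ∧ p < q ∧ D.res (x p) p ≤ x q}.Finite := by
      intro q hq
      exact hcon q hq
    obtain ⟨m, hm⟩ := exists_fiber hv fun q =>
      {p | p ∈ E ∧ p < q ∧ D.res (x p) p ≤ x q}.ncard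
    apply hm
    have hanti' : ((fun p => D.res (x p) p) '' {a | a ∈ E ∧
        {p | p ∈ E ∧ p < a ∧ D.res (x p) p ≤ x a}.ncard = m}).Countable := by
      apply hanti
      rintro _ ⟨p, hp, rfl⟩ _ ⟨q, hq, rfl⟩ hne hle
      simp only at hne hle
      have hpq : p < q := by
        have h1 := D.len_mono hle
        rw [D.len_res (hxl p).le, D.len_res (hxl q).le] at h1
        refine lt_of_le_of_ne h1 fun h2 => hne ?_
        rw [h2]
      have hle2 : D.res (x p) p ≤ x q := hle.trans (D.res_le (hxl q).le)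
      have h3 : {r | r ∈ E ∧ r < p ∧ D.res (x r) r ≤ x p} ⊂
          {r | r ∈ E ∧ r < q ∧ D.res (x r) r ≤ x q} := by
        refine ⟨fun r hr => ⟨hr.1, hr.2.1.trans hpq, ?_⟩, fun hcon2 => ?_⟩
        · refine le_trans ?_ hle2
          refine D.le_of_len hr.2.2 (D.res_le (hxl p).le) ?_
          rw [D.len_res (hxl p).le, D.len_res (hxl r).le]
          exact hr.2.1.le
        · exact lt_irrefl p (hcon2 ⟨hp.1, hpq, hle2⟩).2.1
      have h4 := Set.ncard_lt_ncard h3 (hfin q hq.1)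
      have h5 := hp.2
      have h6 := hq.2
      omega
    refine Set.MapsTo.countable_of_injOn (Set.mapsTo_image _ _) ?_ hanti'
    intro p _ q _ hpq
    have h1 := congrArg D.len hpq
    simp only [D.len_res (hxl p).le, D.len_res (hxl q).le] at h1
    exact h1
  -- choose the predecessor
  obtain ⟨p, ⟨hpE, hpq, hpx⟩, hpn⟩ : ∃ p ∈ {p | p ∈ E ∧ p < q ∧ D.res (x p) p ≤ x q},
      p ∉ {ξ | ξ < D.len (x q) ∧
        ρ ξ (D.len (x q)) ≤ max (ρ q (D.len (x q))) (ρ q (D.len (x' q)))} := by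
    by_contra hcon
    push Not at hcon
    exact hq ((hρ.fin _ _).subset hcon)
  have hpq' : p < D.len (x q) := hpq.trans (hxl q)
  have hbig : max (ρ q (D.len (x q))) (ρ q (D.len (x' q))) < ρ p (D.len (x q)) := by
    by_contra hcon
    exact hpn ⟨hpq', not_lt.1 hcon⟩
  obtain ⟨e1, e2, e3, e4, e5⟩ := hEv p hpE q hqE
  have hlp := hEl p hpE
  have hlq := hEl q hqE
  -- agreement of the two functions of `q` above `l`
  have hsame : ∀ r ∈ E, ∀ ξ, l < ξ → ξ < r →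
      ρ ξ (D.len (x r)) = ρ ξ (D.len (x' r)) := by
    intro r hr ξ h1 h2
    by_contra h3
    exact absurd ((hh3 r ξ h2 h3).trans (hEh r hr)) (not_le.2 h1)
  have hlow : ∀ ξ ≤ l, ρ ξ (D.len (x p)) = ρ ξ (D.len (x q)) :=
    hc _ _ (hlp.trans (hxl p)) (hlq.trans (hxl q)) e1
  have hlow' : ∀ ξ ≤ l, ρ ξ (D.len (x' p)) = ρ ξ (D.len (x' q)) :=
    hc _ _ (hlp.trans (hx'l p)) (hlq.trans (hx'l q)) e2
  have hpp : ρ p (D.len (x p)) < ρ p (D.len (x q)) := by
    rw [e3]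
    exact (le_max_left _ _).trans_lt hbig
  have hpp' : ρ p (D.len (x' p)) < ρ p (D.len (x' q)) := by
    rw [e4, ← hsame q hqE p hlp hpq]
    exact (le_max_right _ _).trans_lt hbig
  -- the first difference
  obtain ⟨ξ, hξ, hξmin⟩ := (wellFounded_lt (α := K)).has_min
    {ξ | ρ ξ (D.len (x p)) ≠ ρ ξ (D.len (x q))} ⟨p, hpp.ne⟩
  have hξp : ξ ≤ p := not_lt.1 (hξmin p hpp.ne)
  have hξl : l < ξ := by
    by_contra hcon
    exact hξ (hlow ξ (not_lt.1 hcon))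
  have hbelow : ∀ η < ξ, ρ η (D.len (x p)) = ρ η (D.len (x q)) := by
    intro η hη
    by_contra hcon
    exact hξmin η hcon hη
  have hbelow' : ∀ η < ξ, ρ η (D.len (x' p)) = ρ η (D.len (x' q)) := by
    intro η hη
    rcases le_or_gt η l with h1 | h1
    · exact hlow' η h1
    · rw [← hsame p hpE η h1 (hη.trans_le hξp),
        ← hsame q hqE η h1 ((hη.trans_le hξp).trans hpq)]
      exact hbelow η hη
  have hdir : (ρ ξ (D.len (x p)) < ρ ξ (D.len (x q)) ∧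
      ρ ξ (D.len (x' p)) < ρ ξ (D.len (x' q))) ∨
      (ρ ξ (D.len (x q)) < ρ ξ (D.len (x p)) ∧
      ρ ξ (D.len (x' q)) < ρ ξ (D.len (x' p))) := by
    rcases eq_or_lt_of_le hξp with h1 | h1
    · rw [h1]
      exact Or.inl ⟨hpp, hpp'⟩
    · rw [← hsame p hpE ξ hξl h1, ← hsame q hqE ξ hξl (h1.trans hpq)]
      rcases lt_or_gt_of_ne hξ with h2 | h2
      · exact Or.inl ⟨h2, h2⟩
      · exact Or.inr ⟨h2, h2⟩
  -- the restrictions
  have hres : D.res (x q) p = D.res (x p) p :=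
    D.eq_of_len (D.res_le hpq'.le) hpx (by rw [D.len_res hpq'.le, D.len_res (hxl p).le])
  have hs0p : ∀ η, γ ≤ η → η ≤ p → s₀ ≤ D.res (x p) η := by
    intro η h1 h2
    refine D.le_of_len (hsx p) (D.res_le (h2.trans (hxl p).le)) ?_
    rw [D.len_res (h2.trans (hxl p).le)]
    exact h1
  have hγp := (hEγ p hpE).le
  have hγl : γ ≤ l := (hh2 p).trans (hEh p hpE)
  have hγξ : γ ≤ ξ := hγl.trans hξl.le
  have hgl : ∀ η, γ ≤ η → η ≤ p → D.len (g (D.res (x p) η)) = η := by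
    intro η h1 h2
    rw [(hg1 _ (hs0p η h1 h2)).2.1, D.len_res (h2.trans (hxl p).le)]
  have hgp : D.res (x' p) p = g (D.res (x p) p) :=
    D.eq_of_len (D.res_le (hx'l p).le) (hgx p hγp)
      (by rw [D.len_res (hx'l p).le, hgl p hγp le_rfl])
  have hmono : D.res (x p) p ≤ D.res (x q) q := by
    rw [← hres]
    refine D.le_of_len (D.res_le hpq'.le) (D.res_le (hxl q).le) ?_
    rw [D.len_res hpq'.le, D.len_res (hxl q).le]
    exact hpq.le
  have hgq : g (D.res (x p) p) ≤ x' q :=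
    (hg2 _ _ (hs0p p hγp le_rfl) hmono).trans (hgx q (hEγ q hqE).le)
  have hpq'' : p < D.len (x' q) := hpq.trans (hx'l q)
  have hgp' : D.res (x' q) p = g (D.res (x p) p) :=
    D.eq_of_len (D.res_le hpq''.le) hgq (by rw [D.len_res hpq''.le, hgl p hγp le_rfl])
  have hgξ : D.res (x' p) ξ = g (D.res (x p) ξ) := by
    refine D.eq_of_len (D.res_le (hξp.trans (hx'l p).le)) ?_
      (by rw [D.len_res (hξp.trans (hx'l p).le), hgl ξ hγξ hξp])
    refine (hg2 _ (D.res (x p) p) (hs0p ξ hγξ hξp) ?_).trans (hgx p hγp)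
    refine D.le_of_len (D.res_le (hξp.trans (hxl p).le)) (D.res_le (hxl p).le) ?_
    rw [D.len_res (hξp.trans (hxl p).le), D.len_res (hxl p).le]
    exact hξp
  have hsg : sgn (D.res (x' p) ξ) = !sgn (D.res (x p) ξ) := by
    rw [hgξ]
    exact (hg1 _ (hs0p ξ hγξ hξp)).2.2
  have hqξ : D.res (x q) ξ = D.res (x p) ξ := by
    rw [← D.res_res hξp hpq'.le, ← D.res_res hξp (hxl p).le, hres]
  have hqξ' : D.res (x' q) ξ = D.res (x' p) ξ := by
    rw [← D.res_res hξp hpq''.le, ← D.res_res hξp (hx'l p).le, hgp', hgp]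
  -- conclusion
  rcases hdir with ⟨h1, h2⟩ | ⟨h1, h2⟩ <;> rcases hsp : sgn (D.res (x p) ξ) with _ | _
  · -- sign false: `x q < x p`, `x' p < x' q`
    refine ⟨x q, hxX q, x p, hxX p, x' q, hx'X q, x' p, hx'X p, e5.symm, ?_, ?_⟩
    · exact LLine.lt_of hξp hpq' (hxl p) hres (fun η hη => (hbelow η hη).symm)
        (Or.inr ⟨by rw [hqξ, hsp], h1⟩)
    · exact LLine.lt_of hξp (hx'l p) hpq'' (hgp.trans hgp'.symm) hbelow'
        (Or.inl ⟨by rw [hsg, hsp]; rfl, h2⟩)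
  · refine ⟨x p, hxX p, x q, hxX q, x' p, hx'X p, x' q, hx'X q, e5, ?_, ?_⟩
    · exact LLine.lt_of hξp (hxl p) hpq' hres.symm hbelow (Or.inl ⟨hsp, h1⟩)
    · exact LLine.lt_of hξp hpq'' (hx'l p) (hgp'.trans hgp.symm)
        (fun η hη => (hbelow' η hη).symm) (Or.inr ⟨by rw [hqξ', hsg, hsp]; rfl, h2⟩)
  · refine ⟨x p, hxX p, x q, hxX q, x' p, hx'X p, x' q, hx'X q, e5, ?_, ?_⟩
    · exact LLine.lt_of hξp (hxl p) hpq' hres.symm hbelow (Or.inr ⟨hsp, h1⟩)
    · exact LLine.lt_of hξp hpq'' (hx'l p) (hgp'.trans hgp.symm)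
        (fun η hη => (hbelow' η hη).symm) (Or.inl ⟨by rw [hqξ', hsg, hsp]; rfl, h2⟩)
  · refine ⟨x q, hxX q, x p, hxX p, x' q, hx'X q, x' p, hx'X p, e5.symm, ?_, ?_⟩
    · exact LLine.lt_of hξp hpq' (hxl p) hres (fun η hη => (hbelow η hη).symm)
        (Or.inl ⟨by rw [hqξ, hsp], h1⟩)
    · exact LLine.lt_of hξp (hx'l p) hpq'' (hgp.trans hgp'.symm) hbelow'
        (Or.inr ⟨by rw [hsg, hsp]; rfl, h2⟩)

end Helper2.AR
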