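import Pool.Agent.Helper2.AR.Defs

/-!
# A coherent system of isomorphisms of cones with trivial isotropy  (module [AR-Orb])

`Orb D`: for every level `δ` an equivalence relation `R δ` on the elements of levels `≥ δ`
(`R δ w w'` implies `len w = len w' ≥ δ`), compatible with restrictions (`restr`), with at most
one element of each class above each element of level `δ` (`uniq`), with the lifting property
(`lift`), increasing in `δ` (`mono`). (`R δ` is the orbit relation of the isomorphisms of cones
of elements of level `δ` which have been chosen so far.)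

`exists_orb`: Zorn. Order the structures by `R ⊆ R'` (for all `δ`); the trivial structure
(`R δ w w' ↔ w = w' ∧ δ ≤ len w`) exists, unions of chains are structures. Let `O` be maximal and
suppose `rich` fails at `s`: no `δ`, `t ≠ t'` above `s` of level `δ` with `R δ t t'`. Then:
(*) `R ε w w'`, `s ≤ w`, `s ≤ w'` imply `w = w'`. (If `ε ≤ len s` then `res w ε = res s ε =
res w' ε`, use `uniq`. If `ε > len s` then `t = res w ε`, `t' = res w' ε` are above `s`,
`R ε t t'` by `restr`, so `t = t'`, use `uniq`.)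
Take `u ≠ v` above `s` of the same level `δ₀` with an isomorphism `h : Ici u ≃o Ici v` preserving
`len`. New structure: `R' ε = R ε` for `ε < δ₀` and, for `ε ≥ δ₀`,
`R' ε w w' ↔ R ε w w' ∨ ∃ x ≥ u, (R ε w x ∧ R ε (h x) w') ∨ (R ε w (h x) ∧ R ε x w')`.
Checks: symmetry clear. Transitivity: `w ~ x, h x ~ w'` and `w' ~ y, h y ~ w''`: `R (h x) y`,
both above `s`, so `h x = y` by (*), but `h x ≥ v`, `y ≥ u`, and `u ≠ v` have the same level
(both would be `res y δ₀`): contradiction. `w ~ x, h x ~ w'`, `w' ~ h y, y ~ w''`: `R (h x) (h y)`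
so `h x = h y`, `x = y`, `R w w''`. The other cases are symmetric or easy. `restr`: `res x η ≥ u`
for `δ₀ ≤ ε ≤ η ≤ len x`, `h (res x η) = res (h x) η`. `uniq`: if `R' ε w w'` by `x`, and
`res w ε = res w' ε`: `R ε (res w ε) (res x ε)`, `R ε (h (res x ε)) (res w' ε)`, so
`R ε (res x ε) (h (res x ε))`, both above `s`, so equal, contradiction as before. `lift`: for
`t ~ x, h x ~ t'`, `w ≥ t`: lift `w` to `x' ≥ x`, then `h x' ≥ h x` to `w' ≥ t'`. `mono`: clear.
`R' δ₀ u v` holds (`x = u`), `R δ₀ u v` does not by (*): contradiction with maximality.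
-/

open Set

namespace Helper2.AR

variable {K T : Type} [LinearOrder K] [PartialOrder T]

/-- coherent orbit relations -/
@[ext]
structure Orb (D : Lev K T) where
  R : K → T → T → Prop
  lev_le : ∀ {δ w w'}, R δ w w' → δ ≤ D.len w
  lev_eq : ∀ {δ w w'}, R δ w w' → D.len w = D.len w'
  refl : ∀ {δ w}, δ ≤ D.len w → R δ w w
  symm : ∀ {δ w w'}, R δ w w' → R δ w' w
  trans : ∀ {δ w w' w''}, R δ w w' → R δ w' w'' → R δ w w''
  restr : ∀ {δ η w w'}, R δ w w' → δ ≤ η → η ≤ D.len w → R δ (D.res w η) (D.res w' η)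
  uniq : ∀ {δ w w'}, R δ w w' → D.res w δ = D.res w' δ → w = w'
  lift : ∀ {δ t t' w}, R δ t t' → t ≤ w → ∃ w', t' ≤ w' ∧ R δ w w'
  mono : ∀ {δ ε w w'}, R δ w w' → δ ≤ ε → ε ≤ D.len w → R ε w w'

/-- above each element there is a nontrivial pair -/
def Orb.Rich {D : Lev K T} (O : Orb D) : Prop :=
  ∀ s, ∃ t t', s ≤ t ∧ s ≤ t' ∧ t ≠ t' ∧ D.len t = D.len t' ∧ O.R (D.len t) t t'

/-- an isomorphism between cones of elements of the same level preserves the levels -/
theorem Lev.len_iso [WellFoundedLT K] (D : Lev K T) {u v : T} (huv : D.len u = D.len v)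
    (h : Ici u ≃o Ici v) (w : Ici u) : D.len (h w).1 = D.len w.1 := by
  sorry

theorem exists_orb [WellFoundedLT K] (D : Lev K T)
    (hiso : ∀ s, ∃ u v, s ≤ u ∧ s ≤ v ∧ u ≠ v ∧ D.len u = D.len v ∧
      Nonempty (Ici u ≃o Ici v)) :
    ∃ O : Orb D, O.Rich := by
  sorry

end Helper2.AR
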