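import Pool.Agent.Helper2.AR.Main
import Pool.Agent.Helper2.AR.Tree

/-!
# From dense isomorphic subsets to isomorphic cones
-/

open Set

namespace Helper2.AR

/-- closure: there are arbitrarily large levels closed under a given function -/
theorem exists_closed (G : K1 → K1) (β : K1) :
    ∃ δ, β < δ ∧ ∀ ξ < δ, G ξ < δ := by
  have hH : ∀ ξ : K1, ∃ b, (∀ ξ' ≤ ξ, G ξ' < b) ∧ ξ < b := by
    intro ξ
    obtain ⟨b, hb⟩ := K1.bdd (G '' Iic ξ ∪ {ξ}) (((K1.iic ξ).image G).union (countable_singleton ξ))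
    exact ⟨b, fun ξ' h => hb _ (Or.inl ⟨ξ', h, rfl⟩), hb _ (Or.inr rfl)⟩
  choose H hH1 hH2 using hH
  obtain ⟨b, hb⟩ := K1.bdd (range fun n : ℕ => H^[n] β) (countable_range _)
  obtain ⟨δ, hδ, hmin⟩ := (wellFounded_lt (α := K1)).has_min
    {b | ∀ n : ℕ, H^[n] β < b} ⟨b, fun n => hb _ ⟨n, rfl⟩⟩
  refine ⟨δ, hδ 0, fun ξ hξ => ?_⟩
  obtain ⟨n, hn⟩ : ∃ n : ℕ, ξ ≤ H^[n] β := by
    by_contra hcon
    push Not at hcon
    exact hmin ξ hcon hξ
  refine (hH1 _ ξ hn).trans_le ?_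
  have h1 := hδ (n + 1)
  rw [Function.iterate_succ_apply'] at h1
  exact h1.le

variable {T : Type} [PartialOrder T]

theorem unc_of_unbounded {C : Set K1} (h : ∀ β, ∃ δ ∈ C, β < δ) : ¬ C.Countable := by
  intro hc
  obtain ⟨b, hb⟩ := K1.bdd C hc
  obtain ⟨δ, hδ, h1⟩ := h b
  exact lt_asymm h1 (hb δ hδ)

/-- the tree of the sets `Iio t`, the level of `t` in `C` -/
def RegTree (D : Lev K1 T) (C : Set K1) : Type := {p : Set T // ∃ t, D.len t ∈ C ∧ p = Iio t}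

instance (D : Lev K1 T) (C : Set K1) : PartialOrder (RegTree D C) :=
  inferInstanceAs (PartialOrder {p : Set T // ∃ t, D.len t ∈ C ∧ p = Iio t})

namespace RegTree

variable {D : Lev K1 T} {C : Set K1}

/-- the node given by `t` -/
def mk' (t : T) (h : D.len t ∈ C) : RegTree D C := ⟨Iio t, t, h, rfl⟩

theorem le_iff (p q : RegTree D C) : p ≤ q ↔ p.1 ⊆ q.1 := Iff.rfl

/-- a node representing `p` -/
noncomputable def node (p : RegTree D C) : T := p.2.choose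

theorem node_mem (p : RegTree D C) : D.len p.node ∈ C := p.2.choose_spec.1

theorem eq_node (p : RegTree D C) : p.1 = Iio p.node := p.2.choose_spec.2

theorem mem_iff (p : RegTree D C) (x : T) : x ∈ p.1 ↔ x < p.node := by
  rw [p.eq_node]
  exact Iff.rfl

theorem res_mem (p : RegTree D C) {ξ : K1} (h : ξ < D.len p.node) : D.res p.node ξ ∈ p.1 := by
  rw [p.mem_iff]
  refine lt_of_le_of_ne (D.res_le h.le) fun h2 => ?_
  have h3 := D.len_res h.le
  rw [h2] at h3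
  exact h.ne h3.symm

theorem len_lt {p : RegTree D C} {x : T} (h : x ∈ p.1) : D.len x < D.len p.node :=
  D.len_lt ((p.mem_iff x).1 h)

theorem len_mono {p q : RegTree D C} (h : p.1 ⊆ q.1) : D.len p.node ≤ D.len q.node := by
  by_contra hcon
  have h1 := h (p.res_mem (not_le.1 hcon))
  have h2 := len_lt h1
  rw [D.len_res (not_le.1 hcon).le] at h2
  exact lt_irrefl _ h2

/-- if `p ⊆ q` then `p` consists of the elements of `q` of smaller level -/
theorem mem_of_le {p q : RegTree D C} (h : p.1 ⊆ q.1) {x : T} (hx : x ∈ q.1)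
    (hl : D.len x < D.len p.node) : x ∈ p.1 := by
  have h1 := h (p.res_mem hl)
  have h2 : D.res p.node (D.len x) = x :=
    D.eq_of_len ((q.mem_iff _).1 h1).le ((q.mem_iff _).1 hx).le (D.len_res hl.le)
  rw [← h2]
  exact p.res_mem hl

theorem len_strictMono {p q : RegTree D C} (h : p < q) : D.len p.node < D.len q.node := by
  refine lt_of_le_of_ne (len_mono h.le) fun h2 => ?_
  apply h.not_ge
  intro x hx
  refine mem_of_le h.le hx ?_
  rw [h2]
  exact len_lt hx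

theorem len_mk' (t : T) (h : D.len t ∈ C) : D.len (mk' t h : RegTree D C).node = D.len t := by
  apply le_antisymm
  · by_contra hcon
    have h3 := (mk' t h : RegTree D C).res_mem (not_le.1 hcon)
    have h4 := D.len_lt (show D.res (mk' t h : RegTree D C).node (D.len t) < t from h3)
    rw [D.len_res (not_le.1 hcon).le] at h4
    exact lt_irrefl _ h4
  · by_contra hcon
    have h3 : D.res t (D.len (mk' t h : RegTree D C).node) ∈ (mk' t h : RegTree D C).1 := by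
      show D.res t (D.len (mk' t h : RegTree D C).node) < t
      refine lt_of_le_of_ne (D.res_le (not_le.1 hcon).le) fun h5 => ?_
      have h6 := D.len_res (not_le.1 hcon).le
      rw [h5] at h6
      exact (not_le.1 hcon).ne h6.symm
    have h4 := len_lt h3
    rw [D.len_res (not_le.1 hcon).le] at h4
    exact lt_irrefl _ h4

theorem isSuslinTree (hT : IsSuslinTree T) (D : Lev K1 T) (hC : ∀ β, ∃ δ ∈ C, β < δ)
    (hlvl : ∀ δ ∈ C, ∃ t, D.len t = δ) : IsSuslinTree (RegTree D C) := by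
  obtain ⟨_, _, _, hchain, hanti⟩ := hT
  refine ⟨?_, ?_, ?_, ?_, ?_⟩
  · intro q p hp p' hp' _
    have h1 : p.1 ⊆ q.1 := (show p < q from hp).le
    have h2 : p'.1 ⊆ q.1 := (show p' < q from hp').le
    rcases le_total (D.len p.node) (D.len p'.node) with h | h
    · exact Or.inl fun x hx => mem_of_le h2 (h1 hx) ((len_lt hx).trans_le h)
    · exact Or.inr fun x hx => mem_of_le h1 (h2 hx) ((len_lt hx).trans_le h)
  · exact ⟨Subrelation.wf (fun {p q} h => len_strictMono h)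
      (InvImage.wf (fun p : RegTree D C => D.len p.node) (wellFounded_lt (α := K1)))⟩
  · rw [← not_countable_iff]
    intro hc
    have h1 : (range fun p : RegTree D C => D.len p.node).Countable := countable_range _
    apply unc_of_unbounded hC
    refine h1.mono fun δ hδ => ?_
    obtain ⟨t, rfl⟩ := hlvl δ hδ
    exact ⟨mk' t hδ, len_mk' t hδ⟩
  · intro A hA
    have h1 : (⋃ p ∈ A, p.1).Countable := by
      apply hchain
      intro x hx y hy _
      simp only [mem_iUnion] at hx hy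
      obtain ⟨p, hp, hx⟩ := hx
      obtain ⟨q, hq, hy⟩ := hy
      have key : ∀ r : RegTree D C, x ∈ r.1 → y ∈ r.1 → x ≤ y ∨ y ≤ x := by
        intro r h1 h2
        rcases le_total (D.len x) (D.len y) with h | h
        · exact Or.inl (D.le_of_len ((r.mem_iff _).1 h1).le ((r.mem_iff _).1 h2).le h)
        · exact Or.inr (D.le_of_len ((r.mem_iff _).1 h2).le ((r.mem_iff _).1 h1).le h)
      rcases hA.total hp hq with h | h
      · exact key q (h hx) hy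
      · exact key p hx (h hy)
    obtain ⟨b, hb⟩ := K1.bdd _ (h1.image D.len)
    refine Set.MapsTo.countable_of_injOn (f := fun p : RegTree D C => D.len p.node)
      (t := Iic b) ?_ ?_ (K1.iic b)
    · intro p hp
      by_contra hcon
      have h2 := hb (D.len (D.res p.node b))
        ⟨_, mem_biUnion hp (p.res_mem (not_le.1 hcon)), rfl⟩
      rw [D.len_res (not_le.1 hcon).le] at h2
      exact lt_irrefl _ h2
    · intro p hp q hq hpq
      simp only at hpq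
      rcases hA.total hp hq with h | h
      · rcases eq_or_lt_of_le h with h | h
        · exact h
        · exact absurd hpq (len_strictMono h).ne
      · rcases eq_or_lt_of_le h with h | h
        · exact h.symm
        · exact absurd hpq (len_strictMono h).ne'
  · intro A hA
    have h1 : (node '' A).Countable := by
      apply hanti
      rintro _ ⟨p, hp, rfl⟩ _ ⟨q, hq, rfl⟩ hne hle
      refine hne (congrArg node (hA.eq hp hq ?_))
      intro x hx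
      rw [mem_iff] at hx ⊢
      exact hx.trans_le hle
    refine Set.MapsTo.countable_of_injOn (mapsTo_image _ _) ?_ h1
    intro p _ q _ hpq
    apply Subtype.ext
    rw [p.eq_node, q.eq_node, hpq]

theorem not_countable_Ici (D : Lev K1 T) (hC : ∀ β, ∃ δ ∈ C, β < δ)
    (hpr : ∀ (s : T) (β : K1), ∃ t, s ≤ t ∧ β ≤ D.len t) (p : RegTree D C) :
    ¬ (Ici p).Countable := by
  intro hc
  obtain ⟨b, hb⟩ := K1.bdd _ (hc.image fun q : RegTree D C => D.len q.node)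
  obtain ⟨δ, hδ, h1⟩ := hC (max b (D.len p.node))
  obtain ⟨t, ht, h2⟩ := hpr p.node δ
  have h3 : D.len (D.res t δ) ∈ C := by
    rw [D.len_res h2]
    exact hδ
  have h4 : p.node ≤ D.res t δ := D.le_of_len ht (D.res_le h2) (by
    rw [D.len_res h2]
    exact (le_max_right _ _).trans h1.le)
  have h5 : p ≤ mk' (D.res t δ) h3 := by
    intro x hx
    rw [mem_iff] at hx
    exact hx.trans_le h4
  have h6 := hb _ ⟨_, h5, rfl⟩
  simp only [len_mk', D.len_res h2] at h6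
  exact lt_asymm h6 ((le_max_left _ _).trans_lt h1)

end RegTree

/-- a pair of dense sets with an isomorphism -/
structure Equi (T : Type) [PartialOrder T] where
  u : T
  v : T
  A : Set T
  B : Set T
  e : A ≃o B
  hA : ∀ a ∈ A, u ≤ a
  hB : ∀ b ∈ B, v ≤ b
  dA : ∀ x, u ≤ x → ∃ a ∈ A, x ≤ a
  dB : ∀ x, v ≤ x → ∃ b ∈ B, x ≤ b

/-- the inverse -/
def Equi.symm (E : Equi T) : Equi T where
  u := E.v
  v := E.u
  A := E.B
  B := E.A
  e := E.e.symm
  hA := E.hB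
  hB := E.hA
  dA := E.dB
  dB := E.dA

/-- the downward closure of the image of `p` -/
def Equi.G (E : Equi T) (p : Set T) : Set T :=
  {x | ∃ (a : T) (ha : a ∈ E.A), a ∈ p ∧ x ≤ (E.e ⟨a, ha⟩).1}

/-- closure of a level with respect to `E` -/
structure Equi.Closed (E : Equi T) (D : Lev K1 T) (δ : K1) : Prop where
  base : D.len E.u < δ
  img : ∀ (a : T) (ha : a ∈ E.A), D.len a < δ → D.len (E.e ⟨a, ha⟩).1 < δ
  pred : ∀ ξ < δ, ∀ t, E.u ≤ t → δ ≤ D.len t → ∃ (a : T) (ha : a ∈ E.A), a ≤ t ∧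
    D.len a < δ ∧ ξ < D.len a ∧ ξ < D.len (E.e ⟨a, ha⟩).1

theorem Equi.exists_bound (E : Equi T) (D : Lev K1 T) (hT : IsSuslinTree T)
    (hpr : ∀ (s : T) (β : K1), ∃ t, s ≤ t ∧ β ≤ D.len t) (ξ : K1) :
    ∃ b : K1, ∀ t, E.u ≤ t → b ≤ D.len t → ∃ (a : T) (ha : a ∈ E.A), a ≤ t ∧
      D.len a < b ∧ ξ < D.len a ∧ ξ < D.len (E.e ⟨a, ha⟩).1 := by
  obtain ⟨_, hwf, _, _, hanti⟩ := hT
  obtain ⟨ξ', hξ'⟩ := exists_gt ξ
  set W : Set T := {a | ξ < D.len a ∧ ∃ ha : a ∈ E.A, ξ < D.len (E.e ⟨a, ha⟩).1} with hW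
  have hdense : ∀ x, E.u ≤ x → ∃ a ∈ W, x ≤ a := by
    intro x hx
    obtain ⟨x', hx', h1⟩ := hpr x ξ'
    obtain ⟨a₁, ha₁, h2⟩ := E.dA x' (hx.trans hx')
    obtain ⟨y, hy, h3⟩ := hpr (E.e ⟨a₁, ha₁⟩).1 ξ'
    obtain ⟨b, hb, h4⟩ := E.dB y ((E.hB _ (E.e ⟨a₁, ha₁⟩).2).trans hy)
    have h5 : (⟨a₁, ha₁⟩ : E.A) ≤ E.e.symm ⟨b, hb⟩ := by
      rw [E.e.le_symm_apply]
      exact hy.trans h4
    refine ⟨(E.e.symm ⟨b, hb⟩).1, ⟨?_, (E.e.symm ⟨b, hb⟩).2, ?_⟩, (hx'.trans h2).trans h5⟩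
    · exact hξ'.trans_le (h1.trans (D.len_mono (h2.trans h5)))
    · have h6 : E.e ⟨(E.e.symm ⟨b, hb⟩).1, (E.e.symm ⟨b, hb⟩).2⟩ = ⟨b, hb⟩ :=
        E.e.apply_symm_apply _
      rw [h6]
      exact hξ'.trans_le (h3.trans (D.len_mono h4))
  have hmin : {a | a ∈ W ∧ ∀ a' ∈ W, a' ≤ a → a' = a}.Countable := by
    apply hanti
    intro a ha b hb hne hle
    exact hne (hb.2 a ha.1 hle)
  obtain ⟨b, hb⟩ := K1.bdd _ (hmin.image D.len)
  refine ⟨b, fun t ht hbt => ?_⟩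
  obtain ⟨a', ha', h1⟩ := hdense t ht
  obtain ⟨a, ⟨ha, h2⟩, h3⟩ := hwf.wf.has_min {a | a ∈ W ∧ a ≤ a'} ⟨a', ha', le_rfl⟩
  have h4 : a ∈ {a | a ∈ W ∧ ∀ a' ∈ W, a' ≤ a → a' = a} := by
    refine ⟨ha, fun c hc hca => ?_⟩
    by_contra hne
    exact h3 c ⟨hc, hca.trans h2⟩ (lt_of_le_of_ne hca hne)
  have h5 := hb _ ⟨a, h4, rfl⟩
  exact ⟨a, ha.2.choose, D.le_of_len h2 h1 (h5.le.trans hbt), h5, ha.1, ha.2.choose_spec⟩

/-- the image of `Iio t` -/
theorem Equi.Closed.G_eq {E : Equi T} {D : Lev K1 T} {δ : K1} (h : E.Closed D δ)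
    {t : T} (ht : E.u ≤ t) (hlen : D.len t = δ) :
    ∃ t', D.len t' = δ ∧ E.G (Iio t) = Iio t' ∧ E.v < t' := by
  obtain ⟨a₁, ha₁, h1⟩ := E.dA t ht
  set c := (E.e ⟨a₁, ha₁⟩).1 with hc
  have hle : ∀ (a : T) (ha : a ∈ E.A), a < t → (E.e ⟨a, ha⟩).1 ≤ c := by
    intro a ha hat
    exact E.e.monotone (show (⟨a, ha⟩ : E.A) ≤ ⟨a₁, ha₁⟩ from (hat.le.trans h1))
  have hcδ : δ ≤ D.len c := by
    by_contra hcon
    obtain ⟨a, ha, h2, h3, h4, h5⟩ := h.pred _ (not_le.1 hcon) t ht hlen.ge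
    have hat : a < t := lt_of_le_of_ne h2 fun h6 => by
      rw [h6, hlen] at h3
      exact lt_irrefl _ h3
    exact absurd (D.len_mono (hle a ha hat)) (not_le.2 h5)
  have hlen' : D.len (D.res c δ) = δ := D.len_res hcδ
  have hlt : ∀ (a : T) (ha : a ∈ E.A), a < t → (E.e ⟨a, ha⟩).1 < D.res c δ := by
    intro a ha hat
    have h2 : D.len (E.e ⟨a, ha⟩).1 < δ := h.img a ha (hlen ▸ D.len_lt hat)
    refine lt_of_le_of_ne (D.le_of_len (hle a ha hat) (D.res_le hcδ) ?_) fun h3 => ?_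
    · rw [hlen']
      exact h2.le
    · rw [h3, hlen'] at h2
      exact lt_irrefl _ h2
  refine ⟨D.res c δ, hlen', ?_, ?_⟩
  · ext x
    constructor
    · rintro ⟨a, ha, hap, hx⟩
      exact hx.trans_lt (hlt a ha hap)
    · intro hx
      have hx' : D.len x < δ := hlen' ▸ D.len_lt hx
      obtain ⟨a, ha, h2, h3, h4, h5⟩ := h.pred _ hx' t ht hlen.ge
      have hat : a < t := lt_of_le_of_ne h2 fun h6 => by
        rw [h6, hlen] at h3
        exact lt_irrefl _ h3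
      exact ⟨a, ha, hat, D.le_of_len (le_of_lt hx) (hlt a ha hat).le h5.le⟩
  · obtain ⟨a, ha, h2, h3, h4, h5⟩ := h.pred _ h.base t ht hlen.ge
    have hat : a < t := lt_of_le_of_ne h2 fun h6 => by
      rw [h6, hlen] at h3
      exact lt_irrefl _ h3
    exact (E.hB _ (E.e ⟨a, ha⟩).2).trans_lt (hlt a ha hat)

theorem Equi.Closed.G_G {E : Equi T} {D : Lev K1 T} {δ : K1} (h : E.Closed D δ)
    {t : T} (ht : E.u ≤ t) (hlen : D.len t = δ) : E.symm.G (E.G (Iio t)) = Iio t := by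
  ext x
  constructor
  · rintro ⟨b, hb, ⟨a, ha, hap, hba⟩, hx⟩
    have h1 : (E.e.symm ⟨b, hb⟩).1 ≤ a := by
      have h2 : E.e.symm ⟨b, hb⟩ ≤ (⟨a, ha⟩ : E.A) := by
        rw [E.e.symm_apply_le]
        exact hba
      exact h2
    exact (hx.trans h1).trans_lt hap
  · intro hx
    obtain ⟨a, ha, h2, h3, h4, h5⟩ := h.pred _ (hlen ▸ D.len_lt hx) t ht hlen.ge
    have hat : a < t := lt_of_le_of_ne h2 fun h6 => by
      rw [h6, hlen] at h3
      exact lt_irrefl _ h3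
    refine ⟨(E.e ⟨a, ha⟩).1, (E.e ⟨a, ha⟩).2, ⟨a, ha, hat, le_rfl⟩, ?_⟩
    have h6 : (E.e.symm ⟨(E.e ⟨a, ha⟩).1, (E.e ⟨a, ha⟩).2⟩) = (⟨a, ha⟩ : E.A) :=
      E.e.symm_apply_apply _
    show x ≤ (E.e.symm ⟨(E.e ⟨a, ha⟩).1, (E.e ⟨a, ha⟩).2⟩).1
    rw [h6]
    exact D.le_of_len (le_of_lt hx) hat.le h4.le

theorem Equi.G_mono (E : Equi T) {p q : Set T} (h : p ⊆ q) : E.G p ⊆ E.G q := by
  rintro x ⟨a, ha, hap, hx⟩
  exact ⟨a, ha, h hap, hx⟩

theorem Equi.symm_symm (E : Equi T) : E.symm.symm = E := rfl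

theorem RegTree.exists_iso {D : Lev K1 T} {C : Set K1} {δ₀ : K1} (E : Equi T)
    (hE : ∀ δ ∈ C, δ₀ ≤ δ → E.Closed D δ) (hE' : ∀ δ ∈ C, δ₀ ≤ δ → E.symm.Closed D δ)
    (pu pv : RegTree D C) (hu : E.u ∈ pu.1) (hv : E.v ∈ pv.1) (hδ : δ₀ ≤ D.len pu.node)
    (hδ' : δ₀ ≤ D.len pv.node) (huv : E.G pu.1 = pv.1) : Nonempty (Ici pu ≃o Ici pv) := by
  have hmem : ∀ (E : Equi T), (∀ δ ∈ C, δ₀ ≤ δ → E.Closed D δ) → ∀ q : RegTree D C,
      E.u ∈ q.1 → δ₀ ≤ D.len q.node → (∃ t, D.len t ∈ C ∧ E.G q.1 = Iio t) ∧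
        E.symm.G (E.G q.1) = q.1 := by
    intro E hE q hq hlen
    have h1 := (q.mem_iff _).1 hq
    obtain ⟨t', h2, h3, _⟩ := (hE _ q.node_mem hlen).G_eq h1.le rfl
    refine ⟨⟨t', h2 ▸ q.node_mem, by rw [q.eq_node, h3]⟩, ?_⟩
    have h4 := (hE _ q.node_mem hlen).G_G h1.le rfl
    rwa [← q.eq_node] at h4
  have hsub : ∀ q : RegTree D C, pu ≤ q → E.u ∈ q.1 ∧ δ₀ ≤ D.len q.node := fun q hq =>
    ⟨hq hu, hδ.trans (len_mono hq)⟩
  have hsub' : ∀ q : RegTree D C, pv ≤ q → E.v ∈ q.1 ∧ δ₀ ≤ D.len q.node := fun q hq =>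
    ⟨hq hv, hδ'.trans (len_mono hq)⟩
  have hvu : E.symm.G pv.1 = pu.1 := by
    rw [← huv]
    exact (hmem E hE pu hu hδ).2
  refine ⟨{
    toFun := fun q => ⟨⟨E.G q.1.1, (hmem E hE q.1 (hsub _ q.2).1 (hsub _ q.2).2).1⟩, ?_⟩
    invFun := fun q => ⟨⟨E.symm.G q.1.1,
      (hmem E.symm hE' q.1 (hsub' _ q.2).1 (hsub' _ q.2).2).1⟩, ?_⟩
    left_inv := ?_
    right_inv := ?_
    map_rel_iff' := ?_ }⟩
  · show pv.1 ⊆ E.G q.1.1
    rw [← huv]
    exact E.G_mono q.2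
  · show pu.1 ⊆ E.symm.G q.1.1
    rw [← hvu]
    exact E.symm.G_mono q.2
  · intro q
    apply Subtype.ext
    apply Subtype.ext
    exact (hmem E hE q.1 (hsub _ q.2).1 (hsub _ q.2).2).2
  · intro q
    apply Subtype.ext
    apply Subtype.ext
    exact (hmem E.symm hE' q.1 (hsub' _ q.2).1 (hsub' _ q.2).2).2
  · intro q r
    constructor
    · intro h
      have h1 : E.symm.G (E.G q.1.1) ⊆ E.symm.G (E.G r.1.1) := E.symm.G_mono h
      rw [(hmem E hE q.1 (hsub _ q.2).1 (hsub _ q.2).2).2,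
        (hmem E hE r.1 (hsub _ r.2).1 (hsub _ r.2).2).2] at h1
      exact h1
    · intro h
      exact E.G_mono h

theorem exists_regular' (hT : IsSuslinTree T) (hunc : ∀ s : T, ¬ (Ici s).Countable)
    (hr : ∀ s : T, ∃ E : Equi T, s ≤ E.u ∧ s ≤ E.v ∧ ¬ E.u ≤ E.v ∧ ¬ E.v ≤ E.u) :
    ∃ (T' : Type) (_ : PartialOrder T'), IsSuslinTree T' ∧ (∀ s : T', ¬ (Ici s).Countable) ∧
      ∀ s : T', ∃ u v, s ≤ u ∧ s ≤ v ∧ ¬ u ≤ v ∧ ¬ v ≤ u ∧ Nonempty (Ici u ≃o Ici v) := by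
  obtain ⟨D⟩ := exists_lev T hT
  have hanti := hT.2.2.2.2
  have hpr : ∀ (s : T) (β : K1), ∃ t, s ≤ t ∧ β ≤ D.len t := by
    intro s β
    by_contra hcon
    push Not at hcon
    exact hunc s ((D.countable_below K1.iic hanti β).mono fun t ht => (hcon t ht).le)
  choose E hsu hsv hn1 hn2 using hr
  have hF : ∀ (s : T) (ξ : K1), ∃ b : K1, ∀ t, (E s).u ≤ t → b ≤ D.len t →
      ∃ (a : T) (ha : a ∈ (E s).A), a ≤ t ∧ D.len a < b ∧ ξ < D.len a ∧
        ξ < D.len ((E s).e ⟨a, ha⟩).1 := fun s ξ => (E s).exists_bound D hT hpr ξ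
  have hF' : ∀ (s : T) (ξ : K1), ∃ b : K1, ∀ t, (E s).symm.u ≤ t → b ≤ D.len t →
      ∃ (a : T) (ha : a ∈ (E s).symm.A), a ≤ t ∧ D.len a < b ∧ ξ < D.len a ∧
        ξ < D.len ((E s).symm.e ⟨a, ha⟩).1 := fun s ξ => (E s).symm.exists_bound D hT hpr ξ
  choose F hF using hF
  choose F' hF' using hF'
  have hG : ∀ ξ : K1, ∃ g : K1, ∀ s, D.len s ≤ ξ → D.len (E s).u < g ∧ D.len (E s).v < g ∧
      F s ξ < g ∧ F' s ξ < g ∧
      (∀ (a : T) (ha : a ∈ (E s).A), D.len a ≤ ξ → D.len ((E s).e ⟨a, ha⟩).1 < g) ∧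
      (∀ (a : T) (ha : a ∈ (E s).symm.A), D.len a ≤ ξ →
        D.len ((E s).symm.e ⟨a, ha⟩).1 < g) := by
    intro ξ
    have hlow := D.countable_below K1.iic hanti ξ
    have hc : ∀ E : Equi T, {x : K1 | ∃ (a : T) (ha : a ∈ E.A), D.len a ≤ ξ ∧
        x = D.len (E.e ⟨a, ha⟩).1}.Countable := by
      intro E
      have h1 : {a : E.A | D.len a.1 ≤ ξ}.Countable := by
        refine Set.MapsTo.countable_of_injOn (f := fun a : E.A => a.1)
          (t := {s | D.len s ≤ ξ}) (fun a ha => ha) ?_ hlow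
        intro a _ b _ hab
        exact Subtype.ext hab
      refine (h1.image fun a => D.len (E.e a).1).mono ?_
      rintro x ⟨a, ha, h2, rfl⟩
      exact ⟨⟨a, ha⟩, h2, rfl⟩
    obtain ⟨g, hg⟩ := K1.bdd (⋃ s ∈ {s | D.len s ≤ ξ}, ({D.len (E s).u, D.len (E s).v, F s ξ,
      F' s ξ} ∪ {x : K1 | ∃ (a : T) (ha : a ∈ (E s).A), D.len a ≤ ξ ∧
        x = D.len ((E s).e ⟨a, ha⟩).1} ∪ {x : K1 | ∃ (a : T) (ha : a ∈ (E s).symm.A),
        D.len a ≤ ξ ∧ x = D.len ((E s).symm.e ⟨a, ha⟩).1}))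
      (hlow.biUnion fun s _ => ((Set.Finite.countable (by simp)).union (hc (E s))).union
        (hc (E s).symm))
    refine ⟨g, fun s hs => ⟨?_, ?_, ?_, ?_, ?_, ?_⟩⟩
    · exact hg _ (mem_biUnion (show s ∈ {s | D.len s ≤ ξ} from hs) (Or.inl (Or.inl (by simp))))
    · exact hg _ (mem_biUnion (show s ∈ {s | D.len s ≤ ξ} from hs) (Or.inl (Or.inl (by simp))))
    · exact hg _ (mem_biUnion (show s ∈ {s | D.len s ≤ ξ} from hs) (Or.inl (Or.inl (by simp))))
    · exact hg _ (mem_biUnion (show s ∈ {s | D.len s ≤ ξ} from hs) (Or.inl (Or.inl (by simp))))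
    · intro a ha h1
      exact hg _ (mem_biUnion (show s ∈ {s | D.len s ≤ ξ} from hs)
        (Or.inl (Or.inr ⟨a, ha, h1, rfl⟩)))
    · intro a ha h1
      exact hg _ (mem_biUnion (show s ∈ {s | D.len s ≤ ξ} from hs)
        (Or.inr ⟨a, ha, h1, rfl⟩))
  choose G hG using hG
  set C : Set K1 := {δ | ∀ ξ < δ, G ξ < δ} with hC
  have hCunb : ∀ β, ∃ δ ∈ C, β < δ := by
    intro β
    obtain ⟨δ, h1, h2⟩ := exists_closed G β
    exact ⟨δ, h2, h1⟩
  have hclosed : ∀ s, ∀ δ ∈ C, D.len s < δ → (E s).Closed D δ := by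
    intro s δ hδ hs
    refine ⟨(hG _ s le_rfl).1.trans (hδ _ hs), ?_, ?_⟩
    · intro a ha h1
      have h2 : max (D.len a) (D.len s) < δ := max_lt h1 hs
      exact ((hG _ s (le_max_right _ _)).2.2.2.2.1 a ha (le_max_left _ _)).trans (hδ _ h2)
    · intro ξ hξ t ht hlen
      have h2 : max ξ (D.len s) < δ := max_lt hξ hs
      have h3 := ((hG _ s (le_max_right ξ (D.len s))).2.2.1).trans (hδ _ h2)
      obtain ⟨a, ha, h4, h5, h6, h7⟩ := hF s (max ξ (D.len s)) t ht (h3.le.trans hlen)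
      exact ⟨a, ha, h4, h5.trans h3, (le_max_left _ _).trans_lt h6,
        (le_max_left _ _).trans_lt h7⟩
  have hclosed' : ∀ s, ∀ δ ∈ C, D.len s < δ → (E s).symm.Closed D δ := by
    intro s δ hδ hs
    refine ⟨(hG _ s le_rfl).2.1.trans (hδ _ hs), ?_, ?_⟩
    · intro a ha h1
      have h2 : max (D.len a) (D.len s) < δ := max_lt h1 hs
      exact ((hG _ s (le_max_right _ _)).2.2.2.2.2 a ha (le_max_left _ _)).trans (hδ _ h2)
    · intro ξ hξ t ht hlen
      have h2 : max ξ (D.len s) < δ := max_lt hξ hs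
      have h3 := ((hG _ s (le_max_right ξ (D.len s))).2.2.2.1).trans (hδ _ h2)
      obtain ⟨a, ha, h4, h5, h6, h7⟩ := hF' s (max ξ (D.len s)) t ht (h3.le.trans hlen)
      exact ⟨a, ha, h4, h5.trans h3, (le_max_left _ _).trans_lt h6,
        (le_max_left _ _).trans_lt h7⟩
  have hlvl : ∀ (s : T) (δ : K1), D.len s ≤ δ → ∃ t, s ≤ t ∧ D.len t = δ := by
    intro s δ hs
    obtain ⟨t, ht, h1⟩ := hpr s δ
    exact ⟨D.res t δ, D.le_of_len ht (D.res_le h1) (by rw [D.len_res h1]; exact hs),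
      D.len_res h1⟩
  have hne : Nonempty T := by
    have := hT.2.2.1
    infer_instance
  obtain ⟨r⟩ := hne
  have hlvl' : ∀ δ ∈ C, ∃ t, D.len t = δ := by
    intro δ _
    obtain ⟨t, _, h1⟩ := hpr r δ
    exact ⟨D.res t δ, D.len_res h1⟩
  refine ⟨RegTree D C, inferInstance, RegTree.isSuslinTree hT D hCunb hlvl',
    RegTree.not_countable_Ici D hCunb hpr, fun p => ?_⟩
  set s := p.node with hs
  obtain ⟨δ, hδ, hsδ⟩ := hCunb (D.len s)
  obtain ⟨t, htu, htl⟩ := hlvl (E s).u δ (hclosed s δ hδ hsδ).base.le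
  have htu' : (E s).u < t := lt_of_le_of_ne htu fun h1 => by
    have h2 := (hclosed s δ hδ hsδ).base
    rw [h1, htl] at h2
    exact lt_irrefl _ h2
  obtain ⟨t', h1, h2, h3⟩ := (hclosed s δ hδ hsδ).G_eq htu htl
  have hCt : D.len t ∈ C := by rw [htl]; exact hδ
  have hCt' : D.len t' ∈ C := by rw [h1]; exact hδ
  refine ⟨RegTree.mk' t hCt, RegTree.mk' t' hCt', ?_, ?_, ?_, ?_, ?_⟩
  · intro x hx
    exact ((p.mem_iff x).1 hx).trans_le ((hsu s).trans htu)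
  · intro x hx
    exact ((p.mem_iff x).1 hx).trans_le ((hsv s).trans h3.le)
  · intro hle
    have h4 : (E s).u < t' := hle htu'
    rcases le_total (D.len (E s).u) (D.len (E s).v) with h5 | h5
    · exact hn1 s (D.le_of_len h4.le h3.le h5)
    · exact hn2 s (D.le_of_len h3.le h4.le h5)
  · intro hle
    have h4 : (E s).v < t := hle h3
    rcases le_total (D.len (E s).u) (D.len (E s).v) with h5 | h5
    · exact hn1 s (D.le_of_len htu'.le h4.le h5)
    · exact hn2 s (D.le_of_len h4.le htu'.le h5)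
  · refine RegTree.exists_iso (E s) (δ₀ := δ) (fun δ' h4 h5 => hclosed s δ' h4 (hsδ.trans_le h5))
      (fun δ' h4 h5 => hclosed' s δ' h4 (hsδ.trans_le h5)) _ _ htu' h3 ?_ ?_ h2
    · rw [RegTree.len_mk', htl]
    · rw [RegTree.len_mk', h1]

end Helper2.AR
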