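import Pool.Agent.Helper2.AR.Defs

/-!
# The coherent finite-to-one function `ρ` on `ω₁`  (module [AR-Rho])

`K` is a well order with countable initial segments. `ρ ξ α = F α ξ`, where `F α` is chosen by
recursion on `α` finite-to-one on `Iio α` and equal to `F β` up to finitely many places below `β`
for every `β < α` (`Good`). Existence (`exists_good`): enumerate `Iio α = {c k | k : ℕ}`, let
`k` be the least index with `ξ ≤ c k` and put `g ξ = max k (F (c k) ξ)`.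

`restr`: compare `ρ · α` with `ρ · l` below `l`: they differ at finitely many places; the finite
set of the pairs `(ξ, ρ ξ α)` for these `ξ` and for `ξ = l` is an element of the countable type
`Finset (Iic l × ℕ)`.

`spec`: `sig ρ ξ α = Nat.pair n (number of η ≤ ξ with ρ η α = n)`, `n = ρ ξ α`.
-/

open Set

namespace Helper2.AR

variable {K : Type} [LinearOrder K] {ρ : K → K → ℕ}

/-- `g` is finite-to-one below `α` and extends the functions `f β`, `β < α`, up to finitely many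
places. -/
def Good (α : K) (f : (β : K) → β < α → K → ℕ) (g : K → ℕ) : Prop :=
  (∀ n, {ξ | ξ < α ∧ g ξ ≤ n}.Finite) ∧ ∀ β (hβ : β < α), {ξ | ξ < β ∧ f β hβ ξ ≠ g ξ}.Finite

theorem exists_good (hK : ∀ a : K, (Iic a).Countable) (F : K → K → ℕ) (α : K)
    (hF : ∀ β, β < α → Good β (fun γ _ => F γ) (F β)) : ∃ g, Good α (fun γ _ => F γ) g := by
  classical
  rcases (Iio α).eq_empty_or_nonempty with h0 | hne
  · have h1 : ∀ ξ, ¬ ξ < α := fun ξ hξ => by
      have : ξ ∈ Iio α := hξ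
      rw [h0] at this
      exact this
    refine ⟨0, fun n => ?_, fun β hβ => absurd hβ (h1 β)⟩
    refine Set.Finite.subset Set.finite_empty fun ξ hξ => h1 ξ hξ.1
  · have hc : (Iio α).Countable := (hK α).mono Iio_subset_Iic_self
    obtain ⟨c, hc⟩ := hc.exists_eq_range hne
    have hcm : ∀ k, c k < α := fun k => by
      have : c k ∈ Iio α := by rw [hc]; exact ⟨k, rfl⟩
      exact this
    have hex : ∀ ξ, ξ < α → ∃ k, ξ ≤ c k := fun ξ hξ => by
      have : ξ ∈ range c := by rw [← hc]; exact hξ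
      obtain ⟨k, hk⟩ := this
      exact ⟨k, hk.ge⟩
    -- the least index
    let k : K → ℕ := fun ξ => if h : ∃ k, ξ ≤ c k then Nat.find h else 0
    have hk1 : ∀ ξ, ξ < α → ξ ≤ c (k ξ) := fun ξ hξ => by
      have h := hex ξ hξ
      show ξ ≤ c (if h : ∃ k, ξ ≤ c k then Nat.find h else 0)
      rw [dif_pos h]
      exact Nat.find_spec h
    have hk2 : ∀ ξ j, ξ ≤ c j → k ξ ≤ j := fun ξ j hj => by
      have h : ∃ k, ξ ≤ c k := ⟨j, hj⟩
      show (if h : ∃ k, ξ ≤ c k then Nat.find h else 0) ≤ j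
      rw [dif_pos h]
      exact Nat.find_min' h hj
    refine ⟨fun ξ => max (k ξ) (F (c (k ξ)) ξ), fun n => ?_, fun β hβ => ?_⟩
    · have hfin : (⋃ j ∈ Finset.range (n + 1),
          ({c j} ∪ {ξ | ξ < c j ∧ F (c j) ξ ≤ n})).Finite := by
        refine Set.Finite.biUnion (Finset.finite_toSet _) fun j _ => ?_
        exact (Set.finite_singleton _).union ((hF (c j) (hcm j)).1 n)
      refine hfin.subset fun ξ hξ => ?_
      have h1 := hk1 ξ hξ.1
      have h2 : k ξ ≤ n := (le_max_left _ _).trans hξ.2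
      have h3 : F (c (k ξ)) ξ ≤ n := (le_max_right _ _).trans hξ.2
      rw [mem_iUnion₂]
      refine ⟨k ξ, Finset.mem_range.2 (by omega), ?_⟩
      rcases h1.eq_or_lt with h | h
      · exact Or.inl h
      · exact Or.inr ⟨h, h3⟩
    · obtain ⟨m, hm⟩ := hex β hβ
      have hfin : (⋃ j ∈ Finset.range (m + 1),
          ({c j} ∪ {ξ | ξ < c j ∧ F (c j) ξ ≤ j} ∪
            {ξ | ξ < c j ∧ ξ < β ∧ F (c j) ξ ≠ F β ξ})).Finite := by
        refine Set.Finite.biUnion (Finset.finite_toSet _) fun j _ => ?_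
        refine ((Set.finite_singleton _).union ((hF (c j) (hcm j)).1 j)).union ?_
        rcases lt_trichotomy (c j) β with h | h | h
        · refine ((hF β hβ).2 (c j) h).subset fun ξ hξ => ⟨hξ.1, hξ.2.2⟩
        · refine Set.finite_empty.subset fun ξ hξ => ?_
          exact hξ.2.2 (by rw [h])
        · refine ((hF (c j) (hcm j)).2 β h).subset fun ξ hξ => ⟨hξ.2.1, fun he => hξ.2.2 he.symm⟩
      refine hfin.subset fun ξ hξ => ?_
      have hξα : ξ < α := hξ.1.trans hβ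
      have h1 := hk1 ξ hξα
      have h2 : k ξ ≤ m := hk2 ξ m (hξ.1.le.trans hm)
      rw [mem_iUnion₂]
      refine ⟨k ξ, Finset.mem_range.2 (by omega), ?_⟩
      rcases h1.eq_or_lt with h | h
      · exact Or.inl (Or.inl h)
      · by_cases h3 : F (c (k ξ)) ξ ≤ k ξ
        · exact Or.inl (Or.inr ⟨h, h3⟩)
        · refine Or.inr ⟨h, hξ.1, fun he => hξ.2 ?_⟩
          show F β ξ = max (k ξ) (F (c (k ξ)) ξ)
          rw [max_eq_right (by omega), he]

theorem exists_rho [WellFoundedLT K] (hK : ∀ a : K, (Iic a).Countable) :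
    ∃ ρ : K → K → ℕ, IsRho ρ := by
  classical
  let F : K → K → ℕ := WellFounded.fix (wellFounded_lt (α := K)) fun α f =>
    if h : ∃ g, Good α f g then h.choose else 0
  have hFeq : ∀ α, F α = if h : ∃ g, Good α (fun β _ => F β) g then h.choose else 0 :=
    fun α => WellFounded.fix_eq (wellFounded_lt (α := K)) _ α
  have hF : ∀ α, Good α (fun β _ => F β) (F α) := by
    intro α
    induction α using WellFoundedLT.induction with
    | ind α ih =>
      have h := exists_good hK F α fun β hβ => ih β hβ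
      have h2 := hFeq α
      rw [dif_pos h] at h2
      rw [h2]
      exact h.choose_spec
  refine ⟨fun ξ α => F α ξ, ⟨fun α n => (hF α).1 n, fun α β hαβ => (hF β).2 α hαβ⟩⟩

theorem IsRho.restr (h : IsRho ρ) (hK : ∀ a : K, (Iic a).Countable) (l : K) :
    ∃ c : K → ℕ, ∀ α β, l < α → l < β → c α = c β → ∀ ξ ≤ l, ρ ξ α = ρ ξ β := by
  classical
  have : Countable (Iic l) := (hK l).to_subtype
  obtain ⟨e, he⟩ := exists_injective_nat (Finset (Iic l × ℕ))
  have hfin : ∀ α, l < α → {ξ : Iic l | ξ.1 = l ∨ ρ ξ l ≠ ρ ξ α}.Finite := by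
    intro α hα
    have h1 : ({l} ∪ {ξ | ξ < l ∧ ρ ξ l ≠ ρ ξ α}).Finite :=
      (Set.finite_singleton l).union (h.coh l α hα)
    refine (h1.preimage (f := (Subtype.val : Iic l → K)) Subtype.val_injective.injOn).subset ?_
    intro ξ hξ
    rcases hξ with hξ | hξ
    · exact Or.inl hξ
    · rcases (show ξ.1 ≤ l from ξ.2).eq_or_lt with h2 | h2
      · exact Or.inl h2
      · exact Or.inr ⟨h2, hξ⟩
  refine ⟨fun α => if hα : l < α then
    e ((hfin α hα).toFinset.image fun ξ => (ξ, ρ ξ α)) else 0, ?_⟩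
  intro α β hα hβ hc ξ hξ
  simp only [dif_pos hα, dif_pos hβ] at hc
  have hS := he hc
  have hmem : ∀ (ζ : Iic l) (n : ℕ) (γ : K) (hγ : l < γ),
      (ζ, n) ∈ (hfin γ hγ).toFinset.image (fun ξ : Iic l => (ξ, ρ ξ γ)) ↔
        (ζ.1 = l ∨ ρ ζ l ≠ ρ ζ γ) ∧ ρ ζ γ = n := by
    intro ζ n γ hγ
    simp only [Finset.mem_image, Set.Finite.mem_toFinset, Set.mem_ofPred_eq, Prod.mk.injEq]
    constructor
    · rintro ⟨ζ', h1, rfl, rfl⟩
      exact ⟨h1, rfl⟩
    · rintro ⟨h1, rfl⟩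
      exact ⟨ζ, h1, rfl, rfl⟩
  by_cases h1 : ξ = l ∨ ρ ξ l ≠ ρ ξ α
  · have h2 := (hmem ⟨ξ, hξ⟩ (ρ ξ α) α hα).2 ⟨h1, rfl⟩
    rw [hS] at h2
    exact ((hmem ⟨ξ, hξ⟩ (ρ ξ α) β hβ).1 h2).2.symm
  · by_cases h3 : ξ = l ∨ ρ ξ l ≠ ρ ξ β
    · have h2 := (hmem ⟨ξ, hξ⟩ (ρ ξ β) β hβ).2 ⟨h3, rfl⟩
      rw [← hS] at h2
      exact ((hmem ⟨ξ, hξ⟩ (ρ ξ β) α hα).1 h2).2
    · push Not at h1 h3
      rw [← h1.2, ← h3.2]

/-- the specialising function -/
noncomputable def sig (ρ : K → K → ℕ) (ξ α : K) : ℕ :=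
  Nat.pair (ρ ξ α) ({η | η ≤ ξ ∧ ρ η α = ρ ξ α}.ncard)

theorem IsRho.spec (h : IsRho ρ) {ξ ζ α β : K} (h1 : ξ < ζ) (h2 : ξ < α) (h3 : ζ < β)
    (h4 : ∀ η ≤ ξ, ρ η α = ρ η β) : sig ρ ξ α ≠ sig ρ ζ β := by
  intro hs
  unfold sig at hs
  rw [Nat.pair_eq_pair] at hs
  obtain ⟨hs1, hs2⟩ := hs
  have hfin : {η | η ≤ ζ ∧ ρ η β = ρ ζ β}.Finite :=
    (h.fin β (ρ ζ β)).subset fun η hη => ⟨hη.1.trans_lt h3, hη.2.le⟩
  have hss : {η | η ≤ ξ ∧ ρ η α = ρ ξ α} ⊂ {η | η ≤ ζ ∧ ρ η β = ρ ζ β} := by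
    refine ⟨fun η hη => ⟨hη.1.trans h1.le, ?_⟩, fun hc => ?_⟩
    · rw [← h4 η hη.1, hη.2, hs1]
    · have : ζ ∈ {η | η ≤ ξ ∧ ρ η α = ρ ξ α} := hc ⟨le_rfl, rfl⟩
      exact absurd this.1 (not_le.2 h1)
  exact (Set.ncard_lt_ncard hss hfin).ne hs2

end Helper2.AR
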