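import Pool.Agent.Helper2.AR.Final
import Pool.Agent.Helper2.AR.Reg
import Pool.Agent.Helper85.FL.HasFlips

/-!
# Nowhere rigid Suslin trees

`exists_regular` [AR-Reg]: from a nowhere rigid Suslin tree `T` (all cones uncountable) to a Suslin
tree `T'` with isomorphic incomparable cones above every node. Proof:
for each `s` fix incomparable `u s, v s ≥ s`, dense sets `A s`, `B s` of their cones and
`e s : A s ≃o B s`. Levels: `D : Lev K1 T`.
(1) For `ξ : K1` the set `W = {a ∈ A s | ξ < len a ∧ ξ < len (e a)}` is dense in `Ici (u s)` (go up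
in `A s` above level `ξ`, map to `B s`, go up above level `ξ`, map back). Its minimal elements are
an antichain, so countable; let `F s ξ` bound the levels of the minimal `a` and of their images
`e a` (also for the inverse of `e s`). Every `t ≥ u s` of a level `> F s ξ` is above some `a ∈ W`
with `len a, len (e a) ≤ F s ξ` (take `a' ∈ W` above `t`, `a ≤ a'` minimal in `W`).
(2) `C` = the club of the `δ : K1`, limit, such that `F s ξ < δ`, `len (u s), len (v s) < δ` for
all `ξ < δ` and all `s` of level `< δ` (countably many `s`; unboundedness by a countable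
iteration; only unboundedness is needed, see below which closure is used).
(3) `T' = {p : Set T | ∃ t, len t ∈ C ∧ p = Iio t}` ordered by inclusion. It is a Suslin tree (choose
`t` for every element of an antichain), all its cones are uncountable.
(4) For `s` and `δ ∈ C` above `len s`, `t ≥ u s` of level `δ`: `G (Iio t) = {x | ∃ a ∈ A s, a < t ∧
x ≤ e a} = Iio t'` with `t' = res (e a₁) δ` for any `a₁ ∈ A s`, `a₁ ≥ t` (by (1) the levels of the
`e a`, `a < t`, are `< δ` and cofinal in `δ`). `G` maps the cone of `Iio t` in `T'` isomorphically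
onto the cone of `Iio t'`, the inverse is given by the inverse of `e s`. Above `p = Iio t₀` (level in
`C`) take `s = t₀`, `δ ∈ C` above, `t ≥ u s` of level `δ`: the nodes `Iio t` and `G (Iio t)` are
above `p` and incomparable, since they contain the incomparable elements `u s`, `v s`.
-/

open Set

namespace Helper2.AR

/-- the cones of `u` and `v` are equivalent: they have order isomorphic dense subsets -/
def ConeEquiv {T : Type} [PartialOrder T] (u v : T) : Prop :=
  ∃ A B : Set T, A ⊆ Ici u ∧ B ⊆ Ici v ∧ (∀ x, u ≤ x → ∃ a ∈ A, x ≤ a) ∧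
    (∀ x, v ≤ x → ∃ b ∈ B, x ≤ b) ∧ Nonempty (A ≃o B)

/-- above every node there are two incomparable nodes with equivalent cones -/
def NowhereRigid (T : Type) [PartialOrder T] : Prop :=
  ∀ s : T, ∃ u v, s ≤ u ∧ s ≤ v ∧ ¬ u ≤ v ∧ ¬ v ≤ u ∧ ConeEquiv u v

theorem exists_regular (T : Type) [PartialOrder T] (hT : IsSuslinTree T)
    (hunc : ∀ s : T, ¬ (Ici s).Countable) (hr : NowhereRigid T) :
    ∃ (T' : Type) (_ : PartialOrder T'), IsSuslinTree T' ∧ (∀ s : T', ¬ (Ici s).Countable) ∧
      ∀ s : T', ∃ u v, s ≤ u ∧ s ≤ v ∧ ¬ u ≤ v ∧ ¬ v ≤ u ∧ Nonempty (Ici u ≃o Ici v) := by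
  refine exists_regular' hT hunc fun s => ?_
  obtain ⟨u, v, h1, h2, h3, h4, A, B, hA, hB, dA, dB, ⟨e⟩⟩ := hr s
  exact ⟨⟨u, v, A, B, e, fun a ha => hA ha, fun b hb => hB hb, dA, dB⟩, h1, h2, h3, h4⟩

theorem lines_of_iso (T : Type) [PartialOrder T] (hT : IsSuslinTree T)
    (hunc : ∀ s : T, ¬ (Ici s).Countable)
    (hr : ∀ s : T, ∃ u v, s ≤ u ∧ s ≤ v ∧ ¬ u ≤ v ∧ ¬ v ≤ u ∧ Nonempty (Ici u ≃o Ici v)) :
    Lines := by
  obtain ⟨D⟩ := exists_lev T hT
  obtain ⟨sgn, h⟩ := Helper85.FL.exists_hasFlips hT D hunc hr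
  exact lines_of_flips hT D sgn h

theorem lines_of_nowhereRigid (T : Type) [PartialOrder T] (hT : IsSuslinTree T)
    (hunc : ∀ s : T, ¬ (Ici s).Countable) (hr : NowhereRigid T) : Lines := by
  obtain ⟨T', i, h1, h2, h3⟩ := exists_regular T hT hunc hr
  exact lines_of_iso T' h1 h2 h3

end Helper2.AR
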