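import Pool.Agent.Helper2.AR.Orb

/-!
# The sign function  (module [AR-Sgn])

Given `O : Orb D`, rich. Call a pair `t, t'` of level `δ` FRESH if `R δ t t'` and not `R η t t'`
for any `η < δ`, and `t ≠ t'`.
(a) Above each `s` and each level `ζ` there is a fresh pair of level `> ζ`: take `s₁ ≥ s` of
level `≥ ζ` (`hpr`), by richness `t ≠ t'` above `s₁` with `R δ t t'`, `δ = len t`; let `η ≤ δ` be
the least with `R η t t'`; then `η > len s₁` (otherwise `res t η = res s₁ η = res t' η` and `uniq`
gives `t = t'`); `t₁ = res t η`, `t₁' = res t' η` are above `s₁`, `R η t₁ t₁'` (`restr`),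
`t₁ ≠ t₁'` (`uniq`), and not `R η' t₁ t₁'` for `η' < η`: otherwise lift `t ≥ t₁` to `w ≥ t₁'`
with `R η' t w`, so `R η t w` by `mono`, and `R η t t'`, so `R η w t'`, `res w η = t₁' = res t' η`,
`w = t'` by `uniq`, `R η' t t'`, contradiction with the choice of `η`.
(b) Choose an injective function `s ↦ δ s` (`T → K`) such that there is a fresh pair of level
`δ s` above `s`: well founded recursion along an injection `e : T → K` (`#T ≤ #K`: countable
levels; or use `hcard`): `δ s` is not among the countably many `δ s'`, `e s' < e s`.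
So there are fresh pairs `(p δ, p' δ)` for the levels `δ` in the range, such that above every `s`
there is a pair `(p δ, p' δ)`.
(c) `F t t'` iff `t = t' ∨ ∃ η < len t, R η t t'`: an equivalence relation on `T`. Choose
representatives `q : T → T` (`F t (q t)`, `F t t' → q t = q t'`) such that `q (p δ) = p δ` and
`q (p' δ) = p' δ` (they are not `F`-equivalent, and different levels are never equivalent).
Let `c t = true` iff `t = p' δ` for some `δ`.
(d) `sgn t` by recursion on `len t`: if `q t = t` then `c t`; otherwise choose `η < len t` with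
`R η t (q t)` and `sgn t = xor (c (q t)) (xor (sgn (res t η)) (sgn (res (q t) η)))`.
(e) For `R δ w w'`: `xor (sgn w) (sgn w') = xor (sgn (res w δ)) (sgn (res w' δ))`, by strong
induction on `len w`: trivial if `δ = len w`; otherwise `q w = q w' = r`; with levels `η₁, η₂` for
`w`, `w'` and `m = max δ η₁ η₂ < len w`, the induction hypothesis on level `m` for
`(res w m, res r m)`, `(res w' m, res r m)`, `(res w m, res w' m)` gives the claim.
(f) Flips: given `s` take `(t, t') = (p δ, p' δ)` above `s`, `s₀ = t`, `g w` for `w ≥ t` = the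
unique `w' ≥ t'` with `R δ w w'`; `xor (sgn w) (sgn (g w)) = xor (sgn t) (sgn t') = true` by (e)
and (c) (`sgn (p δ) = c (p δ) = false`, `sgn (p' δ) = true`). `g` is monotone: for `w ≤ x`,
`restr` for `R δ x (g x)` gives `R δ w (res (g x) (len w))`, so `g w = res (g x) (len w) ≤ g x`.
-/

open Set

namespace Helper2.AR

variable {K T : Type} [LinearOrder K] [PartialOrder T]

theorem exists_sgn [WellFoundedLT K] [Uncountable K] (hK : ∀ a : K, (Iic a).Countable)
    (D : Lev K T) (hlev : ∀ δ, {s | D.len s = δ}.Countable)
    (hpr : ∀ (s : T) (δ : K), ∃ t, s ≤ t ∧ δ ≤ D.len t)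
    (O : Orb D) (hO : O.Rich) : ∃ sgn : T → Bool, HasFlips D sgn := by
  sorry

end Helper2.AR
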